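import Mathlib
import Pool.Agent.Y242.LW.Stm

/-!
# Sides of a curve: global properties (statement `LW242.S_IDXb`)
-/

open Set Filter Topology Metric Complex

namespace Y362.LW

open LW242

lemma isOpen_Hp : IsOpen Hp := isOpen_lt continuous_const Complex.continuous_im

lemma convex_Hp : Convex ℝ Hp := convex_halfSpace_im_gt 0

lemma I_mem_Hp : Complex.I ∈ Hp := by simp [Hp]

lemma uni_cont {g : ℂ → ℂ} (hg : Uni g) {u : ℂ} (hu : u ∈ Hp) : ContinuousAt g u :=
  (hg.1.continuousOn).continuousAt (isOpen_Hp.mem_nhds hu)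

lemma uni_open {g : ℂ → ℂ} (hg : Uni g) : IsOpen (g '' Hp) := by
  have han : AnalyticOnNhd ℂ g Hp := hg.1.analyticOnNhd isOpen_Hp
  rcases han.is_constant_or_isOpen convex_Hp.isPreconnected with ⟨w, hw⟩ | h
  · exfalso
    have h1 : Complex.I ∈ Hp := I_mem_Hp
    have h2 : (1 + Complex.I) ∈ Hp := by simp [Hp]
    have h3 := hg.2.2 h1 h2 (by rw [hw _ h1, hw _ h2])
    have h4 := congrArg Complex.re h3
    simp at h4
  · exact h Hp Subset.rfl isOpen_Hp

/-- a locally constant predicate on a preconnected set is constant -/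
lemma pc_const {s : Set ℂ} (hs : IsPreconnected s) {P : ℂ → Prop}
    (h : ∀ u ∈ s, ∀ᶠ v in 𝓝 u, (P v ↔ P u)) {u v : ℂ} (hu : u ∈ s) (hv : v ∈ s) (hP : P u) :
    P v := by
  by_contra hv'
  have hcov : s ⊆ interior {w | P w} ∪ interior {w | ¬ P w} := by
    intro w hw
    by_cases hPw : P w
    · left
      rw [mem_interior_iff_mem_nhds]
      filter_upwards [h w hw] with w' hw'
      exact hw'.2 hPw
    · right
      rw [mem_interior_iff_mem_nhds]
      filter_upwards [h w hw] with w' hw'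
      exact fun h' => hPw (hw'.1 h')
  obtain ⟨w, _, h1, h2⟩ := hs _ _ isOpen_interior isOpen_interior hcov
    ⟨u, hu, (hcov hu).resolve_right (fun h' => interior_subset h' hP)⟩
    ⟨v, hv, (hcov hv).resolve_left (fun h' => hv' (interior_subset h'))⟩
  exact (interior_subset h2) (interior_subset h1)

/-- the clopen argument -/
lemma clopen_empty {g : ℂ → ℂ} (hg : Uni g) {P : ℂ → Prop} (h1 : ∀ u ∈ Hp, ¬ P (g u))
    (h2 : ∀ q ∈ Hp, q ∉ g '' Hp → ∀ᶠ q' in 𝓝 q, (P q' ↔ P q)) : ∀ q ∈ Hp, ¬ P q := by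
  intro q hq hP
  have h3 : P (g Complex.I) := by
    refine pc_const convex_Hp.isPreconnected (P := P) ?_ hq (hg.2.1 I_mem_Hp) hP
    intro u hu
    by_cases hu' : u ∈ g '' Hp
    · filter_upwards [(uni_open hg).mem_nhds hu'] with v hv
      obtain ⟨a, ha, rfl⟩ := hu'
      obtain ⟨b, hb, rfl⟩ := hv
      exact iff_of_false (h1 b hb) (h1 a ha)
    · exact h2 u hu hu'
  exact h1 _ I_mem_Hp h3

lemma curve_sub (g : ℂ → ℂ) (x : ℝ) : curve g x ⊆ g '' Hp := by
  rintro _ ⟨u, hu, rfl⟩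
  exact ⟨u, hu.2, rfl⟩

lemma mem_curve_iff {g : ℂ → ℂ} (hg : Uni g) {x : ℝ} {u : ℂ} (hu : u ∈ Hp) :
    g u ∈ curve g x ↔ u.re = x := by
  constructor
  · rintro ⟨v, hv, hvu⟩
    have := hg.2.2 (show v ∈ Hp from hv.2) hu hvu
    rw [← this]
    exact hv.1
  · intro h
    exact ⟨u, ⟨h, hu⟩, rfl⟩

/-- tendsto of `g(u)/u`, with limit at least one -/
lemma nt_limit (hJ : S_JWC) {g : ℂ → ℂ} {x ζ : ℝ} (hg : Adm g x ζ) :
    ∃ c : ℝ, 1 ≤ c ∧ ∀ M : ℝ, Tendsto (fun z => g z / z) (NTI M) (𝓝 (c : ℂ)) := by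
  obtain ⟨c, -, -, hc⟩ := hJ g hg.1.1 (fun z hz => (hg.1.2.1 hz).le)
  refine ⟨c, ?_, hc⟩
  have h1 : Tendsto (fun y : ℝ => (y : ℂ) * Complex.I) atTop (NTI 1) := by
    refine tendsto_inf.2 ⟨tendsto_comap_iff.2 ?_, tendsto_principal.2 ?_⟩
    · have : (fun z : ℂ => ‖z‖) ∘ (fun y : ℝ => (y : ℂ) * Complex.I) = fun y : ℝ => |y| := by
        funext y
        simp
      rw [this]
      exact tendsto_abs_atTop_atTop
    · filter_upwards [eventually_gt_atTop (0 : ℝ)] with y hy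
      simp [hy, abs_of_pos hy]
  have h2 := (hc 1).comp h1
  have h3 : Tendsto (fun y : ℝ => (g (y * Complex.I) / (y * Complex.I)).re) atTop (𝓝 c) := by
    have := (Complex.continuous_re.tendsto (c : ℂ)).comp h2
    rw [Complex.ofReal_re] at this
    exact this
  refine ge_of_tendsto h3 ?_
  filter_upwards [eventually_gt_atTop (0 : ℝ)] with y hy
  have h4 : (y : ℂ) * Complex.I ∈ Hp := by simp [Hp, hy]
  have h5 := hg.2.1 _ h4
  have h6 : g (y * Complex.I) / (y * Complex.I) = -(Complex.I * g (y * Complex.I)) / (y : ℂ) := by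
    have hy' : (y : ℂ) ≠ 0 := by exact_mod_cast hy.ne'
    field_simp
    ring_nf
    rw [Complex.I_sq]
    ring
  rw [h6, Complex.div_ofReal_re, le_div_iff₀ hy]
  simpa using h5

/-- a point far away in the direction `s + i`, `s = ±1` -/
lemma far_point (hJ : S_JWC) {g : ℂ → ℂ} {x ζ : ℝ} (hg : Adm g x ζ) (s : ℝ) (hs : |s| = 1)
    (R : ℝ) : ∃ u ∈ Hp, 0 < s * (u.re - x) ∧ R ≤ ‖g u‖ ∧ 1 / 2 * ‖g u‖ ≤ s * (g u).re := by
  obtain ⟨c, hc1, hc⟩ := nt_limit hJ hg
  have hs2 : s * s = 1 := by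
    have := abs_mul_abs_self s
    rw [hs] at this
    linarith
  -- the path
  set p : ℝ → ℂ := fun Y => ((x + s * Y : ℝ) : ℂ) + (Y : ℂ) * Complex.I with hp
  have hpre : ∀ Y, (p Y).re = x + s * Y := by intro Y; simp [hp]
  have hpim : ∀ Y, (p Y).im = Y := by intro Y; simp [hp]
  have h1 : Tendsto p atTop (NTI (|x| + 2)) := by
    refine tendsto_inf.2 ⟨tendsto_comap_iff.2 ?_, tendsto_principal.2 ?_⟩
    · refine tendsto_atTop_mono (f := fun Y : ℝ => Y) ?_ tendsto_id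
      intro Y
      have := Complex.abs_im_le_norm (p Y)
      rw [hpim] at this
      exact (le_abs_self Y).trans this
    · filter_upwards [eventually_ge_atTop (1 : ℝ)] with Y hY
      refine ⟨by rw [hpim]; linarith, ?_⟩
      have h2 := Complex.norm_le_abs_re_add_abs_im (p Y)
      rw [hpre, hpim] at h2
      have h3 : |x + s * Y| ≤ |x| + Y := by
        refine (abs_add_le _ _).trans ?_
        rw [abs_mul, hs, one_mul, abs_of_pos (by linarith : (0 : ℝ) < Y)]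
      rw [hpim]
      have h4 : |Y| = Y := abs_of_pos (by linarith)
      rw [h4] at h2
      nlinarith [abs_nonneg x]
  have h2 : Tendsto (fun Y => g (p Y) / p Y) atTop (𝓝 (c : ℂ)) := (hc _).comp h1
  have h3 : Tendsto (fun Y : ℝ => p Y / (Y : ℂ)) atTop (𝓝 ((s : ℂ) + Complex.I)) := by
    have h4 : Tendsto (fun Y : ℝ => ((x * Y⁻¹ : ℝ) : ℂ) + ((s : ℂ) + Complex.I)) atTop
        (𝓝 (((x * 0 : ℝ) : ℂ) + ((s : ℂ) + Complex.I))) := by
      refine Tendsto.add ?_ tendsto_const_nhds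
      exact (Complex.continuous_ofReal.tendsto _).comp (tendsto_inv_atTop_zero.const_mul x)
    have h5 : ((x * 0 : ℝ) : ℂ) + ((s : ℂ) + Complex.I) = (s : ℂ) + Complex.I := by simp
    rw [h5] at h4
    refine h4.congr' ?_
    filter_upwards [eventually_gt_atTop (0 : ℝ)] with Y hY
    have hY' : (Y : ℂ) ≠ 0 := by exact_mod_cast hY.ne'
    simp only [hp]
    push_cast
    field_simp
    ring
  have h4 : Tendsto (fun Y : ℝ => g (p Y) / (Y : ℂ)) atTop
      (𝓝 ((c : ℂ) * ((s : ℂ) + Complex.I))) := by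
    refine (h2.mul h3).congr' ?_
    filter_upwards [eventually_gt_atTop (0 : ℝ)] with Y hY
    have hY' : (Y : ℂ) ≠ 0 := by exact_mod_cast hY.ne'
    have hpY : p Y ≠ 0 := by
      intro h
      have := congrArg Complex.im h
      rw [hpim] at this
      simp at this
      linarith
    field_simp
  -- real inequality
  have h5 : Tendsto (fun Y : ℝ => s * (g (p Y) / (Y : ℂ)).re - 1 / 2 * ‖g (p Y) / (Y : ℂ)‖) atTop
      (𝓝 (s * ((c : ℂ) * ((s : ℂ) + Complex.I)).re - 1 / 2 * ‖(c : ℂ) * ((s : ℂ) + Complex.I)‖)) :=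
    (((Complex.continuous_re.tendsto _).comp h4).const_mul s).sub
      (((continuous_norm.tendsto _).comp h4).const_mul (1 / 2))
  have h6 : 0 < s * ((c : ℂ) * ((s : ℂ) + Complex.I)).re
      - 1 / 2 * ‖(c : ℂ) * ((s : ℂ) + Complex.I)‖ := by
    have h7 : ((c : ℂ) * ((s : ℂ) + Complex.I)).re = c * s := by simp
    have h8 : ‖(c : ℂ) * ((s : ℂ) + Complex.I)‖ ≤ c * (3 / 2) := by
      rw [norm_mul, Complex.norm_real, Real.norm_of_nonneg (by linarith)]
      refine mul_le_mul_of_nonneg_left ?_ (by linarith)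
      rw [Complex.norm_def, Complex.normSq_apply]
      refine Real.sqrt_le_iff.2 ⟨by norm_num, ?_⟩
      simp only [Complex.add_re, Complex.ofReal_re, Complex.I_re, Complex.add_im,
        Complex.ofReal_im, Complex.I_im]
      nlinarith
    rw [h7]
    nlinarith
  obtain ⟨Y, hY1, hY2, hY3⟩ := ((h5.eventually (lt_mem_nhds h6)).and
    ((eventually_gt_atTop (0 : ℝ)).and (eventually_ge_atTop R))).exists
  have hpH : p Y ∈ Hp := by
    change 0 < (p Y).im
    rw [hpim]; exact hY2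
  refine ⟨p Y, hpH, ?_, ?_, ?_⟩
  · rw [hpre]
    have : s * (x + s * Y - x) = Y := by
      have : s * (x + s * Y - x) = (s * s) * Y := by ring
      rw [this, hs2, one_mul]
    rw [this]; exact hY2
  · have h7 := hg.2.1 _ hpH
    rw [hpim] at h7
    have h8 := Complex.abs_im_le_norm (g (p Y))
    have h9 := le_abs_self (g (p Y)).im
    linarith
  · have h7 : (g (p Y) / (Y : ℂ)).re = (g (p Y)).re / Y := Complex.div_ofReal_re _ _
    have h8 : ‖g (p Y) / (Y : ℂ)‖ = ‖g (p Y)‖ / Y := by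
      rw [norm_div, Complex.norm_real, Real.norm_of_nonneg hY2.le]
    rw [h7, h8] at hY1
    have h9 : 0 < (s * (g (p Y)).re - 1 / 2 * ‖g (p Y)‖) / Y := by
      have : (s * (g (p Y)).re - 1 / 2 * ‖g (p Y)‖) / Y =
        s * ((g (p Y)).re / Y) - 1 / 2 * (‖g (p Y)‖ / Y) := by ring
      rw [this]; exact hY1
    have h10 := (div_pos_iff_of_pos_right hY2).1 h9
    linarith

section main

variable (hJ : S_JWC) (hA : S_IDXa) {g : ℂ → ℂ} {x ζ : ℝ}

include hJ hA

lemma right_img (hg : Adm g x ζ) : ∀ u ∈ Hp, x < u.re → RtI g x ζ (g u) := by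
  intro u hu hxu
  obtain ⟨a1, a2, a3, a4, a5, a6, a7⟩ := hA g x ζ hg
  obtain ⟨R, hR⟩ := a7 (1 / 2) (by norm_num)
  obtain ⟨w, hw, hw1, hw2, hw3⟩ := far_point hJ hg 1 (by simp) R
  rw [one_mul] at hw1 hw3
  have hw4 : RtI g x ζ (g w) := (hR (g w) (hg.1.2.1 hw) hw2).1 hw3
  have hs : IsPreconnected ({u : ℂ | x < u.re} ∩ Hp) :=
    ((convex_halfSpace_re_gt x).inter convex_Hp).isPreconnected
  refine pc_const hs (P := fun v => RtI g x ζ (g v)) ?_ (u := w) (v := u)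
    ⟨by simp only [mem_ofPred_eq]; linarith, hw⟩ ⟨hxu, hu⟩ hw4
  rintro v ⟨hv1, hv2⟩
  have hv3 : g v ∉ curve g x := by
    rw [mem_curve_iff hg.1 hv2]
    exact (ne_of_lt hv1).symm
  filter_upwards [(uni_cont hg.1 hv2).eventually (a4 (g v) (hg.1.2.1 hv2) hv3)] with v' hv'
  exact hv'.1

lemma left_img (hg : Adm g x ζ) : ∀ u ∈ Hp, u.re < x → LtI g x ζ (g u) := by
  intro u hu hxu
  obtain ⟨a1, a2, a3, a4, a5, a6, a7⟩ := hA g x ζ hg
  obtain ⟨R, hR⟩ := a7 (1 / 2) (by norm_num)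
  obtain ⟨w, hw, hw1, hw2, hw3⟩ := far_point hJ hg (-1) (by simp) R
  have hw4 : LtI g x ζ (g w) := (hR (g w) (hg.1.2.1 hw) hw2).2 (by linarith)
  have hs : IsPreconnected ({u : ℂ | u.re < x} ∩ Hp) :=
    ((convex_halfSpace_re_lt x).inter convex_Hp).isPreconnected
  refine pc_const hs (P := fun v => LtI g x ζ (g v)) ?_ (u := w) (v := u)
    ⟨by simp only [mem_ofPred_eq]; linarith, hw⟩ ⟨hxu, hu⟩ hw4
  rintro v ⟨hv1, hv2⟩
  have hv3 : g v ∉ curve g x := by
    rw [mem_curve_iff hg.1 hv2]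
    exact ne_of_lt hv1
  filter_upwards [(uni_cont hg.1 hv2).eventually (a4 (g v) (hg.1.2.1 hv2) hv3)] with v' hv'
  exact hv'.2

lemma curve_closed (hg : Adm g x ζ) {q : ℂ} (hq : q ∈ Hp) (hqc : q ∉ curve g x) :
    ∀ᶠ q' in 𝓝 q, q' ∉ curve g x := by
  obtain ⟨a1, a2, a3, a4, a5, a6, a7⟩ := hA g x ζ hg
  by_cases hR : RtI g x ζ q
  · filter_upwards [a4 q hq hqc] with q' hq'
    exact a1 q' (hq'.1.2 hR)
  · have h1 : ∀ᶠ q' in 𝓝 q, ¬ RtI g x ζ q' := by
      filter_upwards [a4 q hq hqc] with q' hq'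
      exact fun h => hR (hq'.1.1 h)
    filter_upwards [h1.eventually_nhds] with q' hq'
    rintro ⟨u, ⟨hu1, hu2⟩, rfl⟩
    have h2 : ∀ᶠ v in 𝓝 u, ¬ RtI g x ζ (g v) :=
      (uni_cont hg.1 (show u ∈ Hp from hu2)).eventually hq'
    have h3 : Tendsto (fun e : ℝ => u + (e : ℂ)) (𝓝[>] 0) (𝓝 u) := by
      have h4 : Tendsto (fun e : ℝ => u + (e : ℂ)) (𝓝 0) (𝓝 (u + ((0 : ℝ) : ℂ))) :=
        (continuous_const.add Complex.continuous_ofReal).tendsto 0
      rw [Complex.ofReal_zero, add_zero] at h4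
      exact h4.mono_left nhdsWithin_le_nhds
    obtain ⟨e, he1, he2⟩ := ((h3.eventually h2).and self_mem_nhdsWithin).exists
    refine he1 (right_img hJ hA hg _ ?_ ?_)
    · simpa [Hp] using hu2
    · have : 0 < e := he2
      simp only [Complex.add_re, Complex.ofReal_re, hu1]
      linarith

lemma sides (hg : Adm g x ζ) : ∀ q ∈ Hp, q ∉ curve g x → RtI g x ζ q ∨ LtI g x ζ q := by
  obtain ⟨a1, a2, a3, a4, a5, a6, a7⟩ := hA g x ζ hg
  have key := clopen_empty hg.1 (P := fun q => q ∉ curve g x ∧ ¬ RtI g x ζ q ∧ ¬ LtI g x ζ q)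
    (by
      rintro u hu ⟨h1, h2, h3⟩
      rw [mem_curve_iff hg.1 hu] at h1
      rcases lt_or_gt_of_ne h1 with h | h
      · exact h3 (left_img hJ hA hg u hu h)
      · exact h2 (right_img hJ hA hg u hu h))
    (by
      intro q hq hq'
      have hqc : q ∉ curve g x := fun h => hq' (curve_sub g x h)
      filter_upwards [a4 q hq hqc, curve_closed hJ hA hg hq hqc] with q' h1 h2
      rw [h1.1, h1.2]
      simp only [h2, hqc])
  intro q hq hqc
  by_contra hno
  rw [not_or] at hno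
  exact key q hq ⟨hqc, hno⟩

lemma transport {f φ : ℂ → ℂ} {ξ : ℝ} (hg : Adm g x ζ) (hφ : Adm φ x ξ) (hf : Uni f)
    (hc : ∀ z ∈ Hp, f (g z) = φ z) : ∀ q ∈ Hp, q ∉ curve g x →
    (RtI g x ζ q ↔ RtI φ x ξ (f q)) ∧ (LtI g x ζ q ↔ LtI φ x ξ (f q)) := by
  obtain ⟨a1, a2, a3, a4, a5, a6, a7⟩ := hA g x ζ hg
  obtain ⟨b1, b2, b3, b4, b5, b6, b7⟩ := hA φ x ξ hφ
  have key := clopen_empty hg.1 (P := fun q => q ∉ curve g x ∧
      ¬ ((RtI g x ζ q ↔ RtI φ x ξ (f q)) ∧ (LtI g x ζ q ↔ LtI φ x ξ (f q))))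
    (by
      rintro u hu ⟨h1, h2⟩
      apply h2
      rw [mem_curve_iff hg.1 hu] at h1
      rw [hc u hu]
      rcases lt_or_gt_of_ne h1 with h | h
      · have c1 := left_img hJ hA hg u hu h
        have c2 := left_img hJ hA hφ u hu h
        exact ⟨iff_of_false (fun h' => a3 _ h' c1) (fun h' => b3 _ h' c2), iff_of_true c1 c2⟩
      · have c1 := right_img hJ hA hg u hu h
        have c2 := right_img hJ hA hφ u hu h
        exact ⟨iff_of_true c1 c2, iff_of_false (fun h' => a3 _ c1 h') (fun h' => b3 _ c2 h')⟩)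
    (by
      intro q hq hq'
      have hqc : q ∉ curve g x := fun h => hq' (curve_sub g x h)
      have hfq : f q ∉ curve φ x := by
        rintro ⟨u, ⟨hu1, hu2⟩, hu3⟩
        rw [← hc u hu2] at hu3
        have := hf.2.2 (hg.1.2.1 (show u ∈ Hp from hu2)) hq hu3
        exact hq' ⟨u, hu2, this⟩
      have hfH : f q ∈ Hp := hf.2.1 hq
      filter_upwards [a4 q hq hqc, curve_closed hJ hA hg hq hqc,
        (uni_cont hf hq).eventually (b4 (f q) hfH hfq)] with q' h1 h2 h3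
      rw [h1.1, h1.2, h3.1, h3.2]
      simp only [h2, hqc])
  intro q hq hqc
  by_contra hno
  exact key q hq ⟨hqc, hno⟩

lemma compare {x' ζ' : ℝ} (hxx : x < x') (hg : Adm g x ζ) (hg' : Adm g x' ζ') :
    (∀ q, RtI g x' ζ' q → RtI g x ζ q) ∧ (∀ q, LtI g x ζ q → LtI g x' ζ' q) := by
  obtain ⟨a1, a2, a3, a4, a5, a6, a7⟩ := hA g x ζ hg
  obtain ⟨b1, b2, b3, b4, b5, b6, b7⟩ := hA g x' ζ' hg'
  have key := clopen_empty hg.1 (P := fun q => RtI g x' ζ' q ∧ ¬ RtI g x ζ q)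
    (by
      rintro u hu ⟨h1, h2⟩
      have h3 := b1 _ h1
      rw [mem_curve_iff hg.1 hu] at h3
      rcases lt_or_gt_of_ne h3 with h | h
      · exact b3 _ h1 (left_img hJ hA hg' u hu h)
      · exact h2 (right_img hJ hA hg u hu (hxx.trans h)))
    (by
      intro q hq hq'
      have hqc : q ∉ curve g x := fun h => hq' (curve_sub g x h)
      have hqc' : q ∉ curve g x' := fun h => hq' (curve_sub g x' h)
      filter_upwards [a4 q hq hqc, b4 q hq hqc'] with q' h1 h2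
      rw [h1.1, h2.1])
  have hfirst : ∀ q, RtI g x' ζ' q → RtI g x ζ q := by
    intro q hq
    by_contra hno
    exact key q hq.1 ⟨hq, hno⟩
  refine ⟨hfirst, ?_⟩
  intro q hq
  have hqH : q ∈ Hp := hq.1
  by_cases hq' : q ∈ g '' Hp
  · obtain ⟨u, hu, rfl⟩ := hq'
    have h3 := a2 _ hq
    rw [mem_curve_iff hg.1 hu] at h3
    rcases lt_or_gt_of_ne h3 with h | h
    · exact left_img hJ hA hg' u hu (h.trans hxx)
    · exact absurd hq (a3 _ (right_img hJ hA hg u hu h))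
  · have hqc' : q ∉ curve g x' := fun h => hq' (curve_sub g x' h)
    rcases sides hJ hA hg' q hqH hqc' with h | h
    · exact absurd hq (a3 _ (hfirst q h))
    · exact h

end main

theorem idxB (hJ : S_JWC) (hA : S_IDXa) : S_IDXb := by
  refine ⟨?_, ?_, ?_⟩
  · intro g x ζ hg
    exact ⟨right_img hJ hA hg, left_img hJ hA hg, sides hJ hA hg⟩
  · intro f g φ x ζ ξ hg hφ hf hc
    exact transport hJ hA hg hφ hf hc
  · intro g x x' ζ ζ' hxx hg hg'
    exact compare hJ hA hxx hg hg'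

end Y362.LW

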