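import Mathlib
import Pool.Agent.Y242.LW.Stm
import Pool.Agent.Y362.LW.IdxB

/-!
# Cluster values of the transition map (statement `LW242.S_CLU`)
-/

open Set Filter Topology Metric Complex

namespace Y362.LW

open LW242

lemma uni_open' {g : ℂ → ℂ} (hg : Uni g) {s : Set ℂ} (hs : s ⊆ Hp) (hso : IsOpen s) :
    IsOpen (g '' s) := by
  have han : AnalyticOnNhd ℂ g Hp := hg.1.analyticOnNhd isOpen_Hp
  rcases han.is_constant_or_isOpen convex_Hp.isPreconnected with ⟨w, hw⟩ | h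
  · exfalso
    have h1 : Complex.I ∈ Hp := I_mem_Hp
    have h2 : (1 + Complex.I) ∈ Hp := by simp [Hp]
    have h3 := hg.2.2 h1 h2 (by rw [hw _ h1, hw _ h2])
    have h4 := congrArg Complex.re h3
    simp at h4
  · exact h s hs hso

/-- continuity of the inverse of a univalent function -/
lemma inv_lim {h : ℂ → ℂ} (hh : Uni h) {U : Filter ℂ} (hU : ∀ᶠ z in U, z ∈ Hp) {w : ℂ}
    (hw : w ∈ Hp) (hlim : Tendsto h U (𝓝 (h w))) : U ≤ 𝓝 w := by
  intro N hN
  obtain ⟨O, hON, hO, hwO⟩ := _root_.mem_nhds_iff.1 hN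
  have h1 : IsOpen (h '' (O ∩ Hp)) := uni_open' hh inter_subset_right (hO.inter isOpen_Hp)
  have h2 : h '' (O ∩ Hp) ∈ 𝓝 (h w) := h1.mem_nhds ⟨w, ⟨hwO, hw⟩, rfl⟩
  filter_upwards [hU, hlim.eventually h2] with z hz hz'
  obtain ⟨v, hv, hvz⟩ := hz'
  rw [← hh.2.2 hv.2 hz hvz]
  exact hON hv.1

lemma ultra_dichotomy (U : Ultrafilter ℂ) (h : ℂ → ℂ) :
    (∃ q, Tendsto h U (𝓝 q)) ∨ Tendsto (fun z => ‖h z‖) U atTop := by
  by_cases hb : ∃ R : ℝ, ∀ᶠ z in (U : Filter ℂ), ‖h z‖ ≤ R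
  · left
    obtain ⟨R, hR⟩ := hb
    obtain ⟨q, -, hq⟩ := (isCompact_closedBall (0 : ℂ) R).ultrafilter_le_nhds (U.map h) (by
      rw [le_principal_iff]
      have h1 : ∀ᶠ w in ((U.map h : Ultrafilter ℂ) : Filter ℂ), ‖w‖ ≤ R := by
        rw [Ultrafilter.coe_map, eventually_map]
        exact hR
      filter_upwards [h1] with z hz
      simpa using hz)
    exact ⟨q, hq⟩
  · right
    push Not at hb
    rw [Filter.tendsto_atTop]
    intro R
    have := hb R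
    filter_upwards [this] with z hz
    exact hz.le

/-- unpacking the non-tangential filter -/
lemma nti_unpack {M : ℝ} {P : ℂ → Prop} (h : ∀ᶠ z in NTI M, P z) :
    ∃ R : ℝ, ∀ u : ℂ, R ≤ ‖u‖ → 0 < u.im → ‖u‖ ≤ M * u.im → P u := by
  rw [NTI, eventually_inf_principal, eventually_comap] at h
  obtain ⟨R, hR⟩ := eventually_atTop.1 h
  exact ⟨R, fun u h1 h2 h3 => hR ‖u‖ h1 u rfl ⟨h2, h3⟩⟩

/-- far away in a sector the map is onto, with preimage nearby -/
lemma far_preimage {h : ℂ → ℂ} (hh : Uni h) (hlim : Tendsto (fun z => h z / z) (NTI 8) (𝓝 1)) :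
    ∃ R : ℝ, 0 < R ∧ ∀ w ∈ Hp, R ≤ ‖w‖ → ‖w‖ ≤ 2 * w.im →
      ∃ u ∈ Hp, h u = w ∧ 3 / 4 * ‖w‖ ≤ ‖u‖ := by
  have h1 : ∀ᶠ z in NTI 8, ‖h z / z - 1‖ < 1 / 100 := by
    have := (Metric.tendsto_nhds.1 hlim) (1 / 100) (by norm_num)
    filter_upwards [this] with z hz
    rwa [dist_eq_norm] at hz
  obtain ⟨R, hR⟩ := nti_unpack h1
  refine ⟨2 * (|R| + 1), by positivity, ?_⟩
  intro w hw hRw hwim
  have hwn : 0 < ‖w‖ := by
    have : 0 < 2 * (|R| + 1) := by positivity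
    linarith
  have hball : ∀ u ∈ closedBall w (‖w‖ / 4), u ∈ Hp ∧ 3 / 4 * ‖w‖ ≤ ‖u‖ ∧ ‖u‖ ≤ 5 / 4 * ‖w‖ ∧
      ‖h u - u‖ ≤ ‖w‖ / 80 := by
    intro u hu
    rw [mem_closedBall, dist_eq_norm] at hu
    have e1 : ‖u‖ ≤ 5 / 4 * ‖w‖ := by
      have : ‖u‖ ≤ ‖u - w‖ + ‖w‖ := by
        have := norm_add_le (u - w) w
        simpa using this
      linarith
    have e2 : 3 / 4 * ‖w‖ ≤ ‖u‖ := by
      have : ‖w‖ ≤ ‖u - w‖ + ‖u‖ := by
        have := norm_sub_le u (u - w)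
        have h' : u - (u - w) = w := by ring
        rw [h'] at this
        linarith
      linarith
    have e3 : ‖w‖ / 4 ≤ u.im := by
      have h2 := Complex.abs_im_le_norm (u - w)
      rw [Complex.sub_im] at h2
      have h3 := (abs_le.1 (h2.trans hu)).1
      linarith
    have e4 : 0 < u.im := by linarith
    have e5 : R ≤ ‖u‖ := by
      have := le_abs_self R
      nlinarith
    have e6 := hR u e5 e4 (by linarith)
    refine ⟨e4, e2, e1, ?_⟩
    have hu0 : u ≠ 0 := by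
      intro h0
      rw [h0] at e4
      simp at e4
    have e7 : h u - u = (h u / u - 1) * u := by
      field_simp
    rw [e7, norm_mul]
    have : ‖h u / u - 1‖ * ‖u‖ ≤ 1 / 100 * (5 / 4 * ‖w‖) :=
      mul_le_mul e6.le e1 (norm_nonneg _) (by norm_num)
    linarith
  have hsub : closedBall w (‖w‖ / 4) ⊆ Hp := fun u hu => (hball u hu).1
  have hd : DiffContOnCl ℂ h (ball w (‖w‖ / 4)) := by
    apply DifferentiableOn.diffContOnCl
    rw [closure_ball _ (by positivity)]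
    exact hh.1.mono hsub
  have hww := (hball w (mem_closedBall_self (by positivity))).2.2.2
  have hsph : ∀ z ∈ sphere w (‖w‖ / 4), ‖w‖ / 8 ≤ ‖h z - h w‖ := by
    intro z hz
    have h2 := (hball z (sphere_subset_closedBall hz)).2.2.2
    rw [mem_sphere, dist_eq_norm] at hz
    have h3 : ‖z - w‖ ≤ ‖h z - h w‖ + ‖h z - z‖ + ‖h w - w‖ := by
      have h4 : z - w = (h z - h w) - (h z - z) + (h w - w) := by ring
      calc ‖z - w‖ = ‖(h z - h w) - (h z - z) + (h w - w)‖ := by rw [← h4]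
        _ ≤ ‖(h z - h w) - (h z - z)‖ + ‖h w - w‖ := norm_add_le _ _
        _ ≤ ‖h z - h w‖ + ‖h z - z‖ + ‖h w - w‖ := by
          gcongr
          exact norm_sub_le _ _
    linarith
  have hne : ∃ᶠ z in 𝓝 w, h z ≠ h w := by
    have h2 : ∀ᶠ z in 𝓝[≠] w, h z ≠ h w := by
      filter_upwards [self_mem_nhdsWithin,
        mem_nhdsWithin_of_mem_nhds (isOpen_Hp.mem_nhds hw)] with z hz hz'
      intro he
      exact hz (hh.2.2 hz' hw he)
    exact (h2.frequently).filter_mono nhdsWithin_le_nhds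
  have hin := hd.ball_subset_image_closedBall (by positivity) hsph hne
  have hwb : w ∈ ball (h w) (‖w‖ / 8 / 2) := by
    rw [mem_ball, dist_comm, dist_eq_norm]
    linarith
  obtain ⟨u, hu, huw⟩ := hin hwb
  exact ⟨u, hsub hu, huw, (hball u hu).2.1⟩

theorem clu (hA : S_IDXa) (hB : S_IDXb) : S_CLU := by
  intro g g' h x₁ x₂ ζ₁ ζ₂ η₁ η₂ hg1 hg2 hg1' hg2' hh hc hlim hno t ht1 ht2 δ hδ
  by_contra hcon
  rw [not_eventually, frequently_iff_neBot] at hcon
  have := hcon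
  set U : Ultrafilter ℂ := Ultrafilter.of
    (𝓝[Hp] (t : ℂ) ⊓ 𝓟 {z | ¬ (η₁ - δ < (h z).re ∧ (h z).re < η₂ + δ ∧ (h z).im < δ)}) with hU
  have hUle : (U : Filter ℂ) ≤
      𝓝[Hp] (t : ℂ) ⊓ 𝓟 {z | ¬ (η₁ - δ < (h z).re ∧ (h z).re < η₂ + δ ∧ (h z).im < δ)} :=
    Ultrafilter.of_le _
  have hU1 : (U : Filter ℂ) ≤ 𝓝[Hp] (t : ℂ) := hUle.trans inf_le_left
  have hU2 : ∀ᶠ z in (U : Filter ℂ),
      ¬ (η₁ - δ < (h z).re ∧ (h z).re < η₂ + δ ∧ (h z).im < δ) := by
    have := hUle.trans inf_le_right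
    exact le_principal_iff.1 this
  have hUt : (U : Filter ℂ) ≤ 𝓝 (t : ℂ) := hU1.trans nhdsWithin_le_nhds
  have hUH : ∀ᶠ z in (U : Filter ℂ), z ∈ Hp := hU1 self_mem_nhdsWithin
  obtain ⟨a1, a2, a3, a4, a5, a6, a7⟩ := hA g' x₁ η₁ hg1'
  obtain ⟨b1, b2, b3, b4, b5, b6, b7⟩ := hA g' x₂ η₂ hg2'
  obtain ⟨c1, c2, c3, c4, c5, c6, c7⟩ := hA g x₁ ζ₁ hg1
  obtain ⟨d1, d2, d3, d4, d5, d6, d7⟩ := hA g x₂ ζ₂ hg2
  have hR : ∀ᶠ z in (U : Filter ℂ), RtI g' x₁ η₁ (h z) := by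
    filter_upwards [hU1 (c5 t ht1)] with z hz
    exact (hB.2.1 h g g' x₁ ζ₁ η₁ hg1 hg1' hh hc z hz.1 (c1 z hz)).1.1 hz
  have hL : ∀ᶠ z in (U : Filter ℂ), LtI g' x₂ η₂ (h z) := by
    filter_upwards [hU1 (d6 t ht2)] with z hz
    exact (hB.2.1 h g g' x₂ ζ₂ η₂ hg2 hg2' hh hc z hz.1 (d2 z hz)).2.1 hz
  have hhH : ∀ᶠ z in (U : Filter ℂ), h z ∈ Hp := by
    filter_upwards [hUH] with z hz
    exact hh.2.1 hz
  have himg : ∀ x, curve g' x ⊆ h '' Hp := by
    rintro x _ ⟨u, ⟨-, hu⟩, rfl⟩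
    rw [← hc u hu]
    exact ⟨g u, hg1.1.2.1 hu, rfl⟩
  rcases ultra_dichotomy U h with ⟨q, hq⟩ | hinf
  · have hqim : 0 ≤ q.im := by
      have h1 : Tendsto (fun z => (h z).im) U (𝓝 q.im) :=
        (Complex.continuous_im.tendsto q).comp hq
      refine ge_of_tendsto h1 ?_
      filter_upwards [hhH] with z hz
      exact hz.le
    rcases lt_or_eq_of_le hqim with hpos | hzero
    · -- `q` in the upper half-plane
      by_cases hqh : q ∈ h '' Hp
      · obtain ⟨w, hw, rfl⟩ := hqh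
        have h1 := inv_lim hh hUH hw hq
        have h2 : (t : ℂ) = w := tendsto_nhds_unique' (U.neBot) hUt h1
        rw [← h2] at hw
        simp [Hp] at hw
      · have hq1 : q ∉ curve g' x₁ := fun h' => hqh (himg x₁ h')
        have hq2 : q ∉ curve g' x₂ := fun h' => hqh (himg x₂ h')
        obtain ⟨z, h1, h2, h3, h4⟩ := (hR.and (hL.and
          ((hq.eventually (a4 q hpos hq1)).and (hq.eventually (b4 q hpos hq2))))).exists
        exact hno q hpos hqh ⟨h3.1.1 h1, h4.2.1 h2⟩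
    · -- `q` real
      have hqr : q = ((q.re : ℝ) : ℂ) := by
        apply Complex.ext
        · simp
        · simp [hzero]
      have hq' : Tendsto h U (𝓝[Hp] ((q.re : ℝ) : ℂ)) := by
        rw [← hqr]
        exact tendsto_nhdsWithin_iff.2 ⟨hq, hhH⟩
      have h1 : η₁ ≤ q.re := by
        by_contra hlt
        rw [not_le] at hlt
        obtain ⟨z, e1, e2⟩ := (hR.and (hq'.eventually (a6 q.re hlt))).exists
        exact a3 _ e1 e2
      have h2 : q.re ≤ η₂ := by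
        by_contra hlt
        rw [not_le] at hlt
        obtain ⟨z, e1, e2⟩ := (hL.and (hq'.eventually (b5 q.re hlt))).exists
        exact b3 _ e2 e1
      have h3 : Tendsto (fun z => (h z).re) U (𝓝 q.re) :=
        (Complex.continuous_re.tendsto q).comp hq
      have h4 : Tendsto (fun z => (h z).im) U (𝓝 q.im) :=
        (Complex.continuous_im.tendsto q).comp hq
      obtain ⟨z, e1, e2, e3, e4⟩ := (hU2.and
        ((h3.eventually (lt_mem_nhds (by linarith : η₁ - δ < q.re))).and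
        ((h3.eventually (gt_mem_nhds (by linarith : q.re < η₂ + δ))).and
        (h4.eventually (gt_mem_nhds (by linarith : q.im < δ)))))).exists
      exact e1 ⟨e2, e3, e4⟩
  · -- infinity
    obtain ⟨R1, hR1⟩ := a7 (1 / 2) (by norm_num)
    obtain ⟨R2, hR2⟩ := b7 (1 / 2) (by norm_num)
    obtain ⟨R3, hR3, hpre⟩ := far_preimage hh (hlim 8)
    have hnear : ∀ᶠ z in (U : Filter ℂ), ‖z‖ < |t| + 1 := by
      have h1 : Tendsto (fun z : ℂ => ‖z‖) U (𝓝 ‖(t : ℂ)‖) := (continuous_norm.tendsto _).mono_left hUt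
      rw [Complex.norm_real, Real.norm_eq_abs] at h1
      exact h1.eventually (gt_mem_nhds (by linarith))
    obtain ⟨z, e1, e2, e3, e4, e5, e6, e7, e8, e9⟩ := (hR.and (hL.and (hUH.and (hhH.and
      ((hinf.eventually_ge_atTop R1).and ((hinf.eventually_ge_atTop R2).and
      ((hinf.eventually_ge_atTop R3).and
      ((hinf.eventually_ge_atTop (2 * (|t| + 1))).and hnear)))))))).exists
    have f1 : -(1 / 2 * ‖h z‖) < (h z).re := by
      by_contra hle
      rw [not_lt] at hle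
      exact a3 _ e1 ((hR1 (h z) e4 e5).2 hle)
    have f2 : (h z).re < 1 / 2 * ‖h z‖ := by
      by_contra hle
      rw [not_lt] at hle
      exact b3 _ ((hR2 (h z) e4 e6).1 hle) e2
    have f3 : ‖h z‖ ≤ 2 * (h z).im := by
      have h1 := Complex.norm_le_abs_re_add_abs_im (h z)
      have h2 : |(h z).re| ≤ 1 / 2 * ‖h z‖ := abs_le.2 ⟨f1.le, f2.le⟩
      have h3 : |(h z).im| = (h z).im := abs_of_pos e4
      rw [h3] at h1
      linarith
    obtain ⟨u, hu, huw, hun⟩ := hpre (h z) e4 e7 f3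
    have huz : u = z := hh.2.2 hu e3 huw
    rw [huz] at hun
    have : 0 ≤ |t| := abs_nonneg t
    linarith

end Y362.LW

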