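import Mathlib
import Pool.Agent.Y242.LW.Stm

/-!
# Filling lemma in the plane (statement `LW242.S_FILL`)
-/

open Set Filter Topology Metric

namespace Y362.LW

section clopen

variable {K : Type*} [TopologicalSpace K] [T2Space K] [CompactSpace K]

lemma exists_clopen_nbhd (x : K) (U : Set K) (hU : IsOpen U) (h : connectedComponent x ⊆ U) :
    ∃ Z : Set K, IsClopen Z ∧ x ∈ Z ∧ Z ⊆ U := by
  have hc : IsCompact Uᶜ := hU.isClosed_compl.isCompact
  have key : ∃ Z : Set K, IsClopen Z ∧ x ∈ Z ∧ Disjoint Uᶜ Z := by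
    refine hc.induction_on (p := fun T => ∃ Z : Set K, IsClopen Z ∧ x ∈ Z ∧ Disjoint T Z)
      ?_ ?_ ?_ ?_
    · exact ⟨univ, isClopen_univ, mem_univ _, empty_disjoint _⟩
    · rintro s t hst ⟨Z, hZ, hx, hd⟩
      exact ⟨Z, hZ, hx, hd.mono_left hst⟩
    · rintro s t ⟨Z, hZ, hx, hd⟩ ⟨Z', hZ', hx', hd'⟩
      refine ⟨Z ∩ Z', hZ.inter hZ', ⟨hx, hx'⟩, ?_⟩
      rw [Set.disjoint_union_left]
      exact ⟨hd.mono_right inter_subset_left, hd'.mono_right inter_subset_right⟩
    · intro y hy
      have h1 : y ∉ connectedComponent x := fun h' => hy (h h')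
      rw [connectedComponent_eq_iInter_isClopen, mem_iInter, not_forall] at h1
      obtain ⟨⟨Z, hZ, hxZ⟩, hyZ⟩ := h1
      refine ⟨Zᶜ, mem_nhdsWithin_of_mem_nhds (hZ.isClosed.isOpen_compl.mem_nhds hyZ), Z, hZ, hxZ,
        disjoint_compl_left⟩
  obtain ⟨Z, hZ, hx, hd⟩ := key
  refine ⟨Z, hZ, hx, ?_⟩
  intro z hz
  by_contra hcon
  exact Set.disjoint_left.1 hd hcon hz

lemma exists_clopen_sep (A B : Set K) (hA : IsClosed A) (hB : IsClosed B)
    (h : ∀ x ∈ A, Disjoint (connectedComponent x) B) :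
    ∃ Z : Set K, IsClopen Z ∧ A ⊆ Z ∧ Disjoint Z B := by
  refine hA.isCompact.induction_on (p := fun T => ∃ Z : Set K, IsClopen Z ∧ T ⊆ Z ∧ Disjoint Z B)
    ?_ ?_ ?_ ?_
  · exact ⟨∅, isClopen_empty, Subset.rfl, empty_disjoint _⟩
  · rintro s t hst ⟨Z, hZ, hx, hd⟩
    exact ⟨Z, hZ, hst.trans hx, hd⟩
  · rintro s t ⟨Z, hZ, hx, hd⟩ ⟨Z', hZ', hx', hd'⟩
    refine ⟨Z ∪ Z', hZ.union hZ', union_subset_union hx hx', ?_⟩
    rw [Set.disjoint_union_left]
    exact ⟨hd, hd'⟩
  · intro x hx
    obtain ⟨Z, hZ, hxZ, hZU⟩ := exists_clopen_nbhd x Bᶜ hB.isOpen_compl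
      (fun z hz hzB => Set.disjoint_left.1 (h x hx) hz hzB)
    refine ⟨Z, mem_nhdsWithin_of_mem_nhds (hZ.isOpen.mem_nhds hxZ), Z, hZ, Subset.rfl, ?_⟩
    rw [Set.disjoint_left]
    intro z hz hzB
    exact hZU hz hzB

end clopen

/-- Separation in a compact subset of the plane. -/
lemma clopen_sep {K C₁ C₂ : Set ℂ} (hK : IsCompact K) (h1 : IsClosed C₁) (h2 : IsClosed C₂)
    (hC1 : C₁ ⊆ K) (hC2 : C₂ ⊆ K)
    (h : ∀ Y ⊆ K, IsPreconnected Y → (Y ∩ C₁).Nonempty → ¬ (Y ∩ C₂).Nonempty) :
    ∃ Z ⊆ K, IsClosed Z ∧ IsClosed (K \ Z) ∧ C₁ ⊆ Z ∧ C₂ ⊆ K \ Z := by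
  have : CompactSpace K := isCompact_iff_compactSpace.1 hK
  have hemb := hK.isClosed.isClosedEmbedding_subtypeVal
  obtain ⟨Z, hZ, hAZ, hZB⟩ := exists_clopen_sep ((↑) ⁻¹' C₁ : Set K) ((↑) ⁻¹' C₂ : Set K)
    (h1.preimage continuous_subtype_val) (h2.preimage continuous_subtype_val) (by
      intro x hx
      rw [Set.disjoint_left]
      intro z hz hzB
      refine h ((↑) '' connectedComponent x) ?_
        (isPreconnected_connectedComponent.image _ continuous_subtype_val.continuousOn)
        ⟨x, ⟨x, mem_connectedComponent, rfl⟩, hx⟩ ⟨z, ⟨z, hz, rfl⟩, hzB⟩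
      rintro _ ⟨w, _, rfl⟩
      exact w.2)
  have hc : K \ ((↑) '' Z) = (((↑) : K → ℂ) '' Zᶜ) := by
    ext z
    constructor
    · rintro ⟨hz, hz'⟩
      exact ⟨⟨z, hz⟩, fun h' => hz' ⟨⟨z, hz⟩, h', rfl⟩, rfl⟩
    · rintro ⟨w, hw, rfl⟩
      refine ⟨w.2, ?_⟩
      rintro ⟨w', hw', he⟩
      rw [Subtype.val_injective he] at hw'
      exact hw hw'
  refine ⟨(↑) '' Z, ?_, hemb.isClosedMap _ hZ.isClosed, ?_, ?_, ?_⟩
  · rintro _ ⟨w, _, rfl⟩
    exact w.2
  · rw [hc]
    exact hemb.isClosedMap _ hZ.compl.isClosed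
  · intro z hz
    exact ⟨⟨z, hC1 hz⟩, hAZ hz, rfl⟩
  · intro z hz
    rw [hc]
    exact ⟨⟨z, hC2 hz⟩, fun h' => Set.disjoint_left.1 hZB h' hz, rfl⟩

lemma ext_preconnected : IsPreconnected ((ball (0 : ℂ) 1)ᶜ) := by
  have h1 : (ball (0 : ℂ) 1)ᶜ =
      (fun p : ℝ × ℝ => (p.1 : ℂ) * Complex.exp (p.2 * Complex.I)) '' (Ici 1 ×ˢ univ) := by
    ext z
    rw [mem_compl_iff, mem_ball_zero_iff, not_lt]
    constructor
    · intro hz
      exact ⟨(‖z‖, Complex.arg z), ⟨hz, trivial⟩, Complex.norm_mul_exp_arg_mul_I z⟩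
    · rintro ⟨⟨r, θ⟩, ⟨hr, -⟩, rfl⟩
      simp only [mem_Ici] at hr
      change 1 ≤ ‖(r : ℂ) * Complex.exp (θ * Complex.I)‖
      rw [norm_mul, Complex.norm_exp_ofReal_mul_I, mul_one, Complex.norm_real,
        Real.norm_of_nonneg (zero_le_one.trans hr)]
      exact hr
  rw [h1]
  refine (isPreconnected_Ici.prod isPreconnected_univ).image _ ?_
  fun_prop

lemma one_mem_ext : (1 : ℂ) ∈ (ball (0 : ℂ) 1)ᶜ := by
  rw [mem_compl_iff, mem_ball_zero_iff, not_lt, norm_one]

theorem t : LW242.S_FILL := by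
  intro D V q ρ hDo hDc hDb hDcc hVo hVb hρ hqV hqD hqD' hVD
  set B : Set ℂ := ball q ρ with hB
  set S : Set ℂ := (ball (0 : ℂ) 1)ᶜ with hS
  have hBV : B ⊆ V := ball_subset_closedBall.trans hqV
  have hBo : IsOpen B := isOpen_ball
  set T : Set ℂ := (D ∪ B)ᶜ with hT
  have hTc : IsClosed T := (hDo.union hBo).isClosed_compl
  have hST : S ⊆ T := compl_subset_compl.2 (union_subset hDb (hBV.trans hVb))
  have hSp : IsPreconnected S := ext_preconnected
  have h1S : (1 : ℂ) ∈ S := one_mem_ext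
  have hSc : IsClosed S := isOpen_ball.isClosed_compl
  set X : Set ℂ := connectedComponentIn T 1 with hX
  have hXp : IsPreconnected X := isPreconnected_connectedComponentIn
  have h1X : (1 : ℂ) ∈ X := mem_connectedComponentIn (hST h1S)
  have hXT : X ⊆ T := connectedComponentIn_subset _ _
  have hSX : S ⊆ X := hSp.subset_connectedComponentIn h1S hST
  have hXc : IsClosed X := by
    have h : closure X ⊆ X := by
      apply IsPreconnected.subset_connectedComponentIn
      · exact hXp.closure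
      · exact subset_closure h1X
      · exact closure_minimal hXT hTc
    exact isClosed_of_closure_subset h
  -- a preconnected subset of `T` meeting `S` or `X` lies in `X`
  have hgrow : ∀ Y ⊆ T, IsPreconnected Y → (Y ∩ X).Nonempty → Y ⊆ X := by
    rintro Y hYT hYp ⟨y, hyY, hyX⟩
    have h := IsPreconnected.union y hyY hyX hYp hXp
    exact (subset_union_left).trans (h.subset_connectedComponentIn (Or.inr h1X)
      (union_subset hYT hXT))
  have hqB : q ∈ B := mem_ball_self hρ
  have hqb : q ∈ ball (0 : ℂ) 1 := hVb (hBV hqB)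
  -- `D ∪ B` is connected
  have hDB : IsPreconnected (D ∪ B) := by
    obtain ⟨y, hyB, hyD⟩ := mem_closure_iff.1 hqD B hBo hqB
    exact IsPreconnected.union y hyD hyB hDc.isPreconnected (convex_ball q ρ).isPreconnected
  have hDBX : D ∪ B ⊆ Xᶜ := fun z hz hzX => hXT hzX hz
  refine ⟨Xᶜ, hXc.isOpen_compl, ?_, ?_, hDBX, ?_, ?_, ?_⟩
  · -- connectedness
    obtain ⟨d0, hd0⟩ := hDc.nonempty
    refine ⟨⟨d0, hDBX (Or.inl hd0)⟩, ?_⟩
    refine isPreconnected_of_forall d0 ?_
    intro y hy
    set C := connectedComponentIn Xᶜ y with hC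
    have hCo : IsOpen C := hXc.isOpen_compl.connectedComponentIn
    have hyC : y ∈ C := mem_connectedComponentIn hy
    have hCX : C ⊆ Xᶜ := connectedComponentIn_subset _ _
    have hCp : IsPreconnected C := isPreconnected_connectedComponentIn
    have hmeet : (C ∩ (D ∪ B)).Nonempty := by
      by_contra hcon
      rw [not_nonempty_iff_eq_empty] at hcon
      have hCT : C ⊆ T := by
        intro z hz hz'
        have : z ∈ C ∩ (D ∪ B) := ⟨hz, hz'⟩
        rw [hcon] at this
        exact this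
      have hcC : closure C ⊆ T := closure_minimal hCT hTc
      -- there is a point of `closure C` outside `C`
      have hex : ∃ p ∈ closure C, p ∉ C := by
        by_contra hno
        push Not at hno
        have hcl : IsClosed C := isClosed_of_closure_subset hno
        have := (isClopen_iff.1 ⟨hcl, hCo⟩)
        rcases this with h | h
        · rw [h] at hyC; exact hyC
        · have : (1 : ℂ) ∈ C := by rw [h]; trivial
          exact hCX this h1X
      obtain ⟨p, hp, hpC⟩ := hex
      have hpX : p ∈ X := by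
        by_contra hpX
        apply hpC
        have h1 : IsPreconnected (insert p C) :=
          hCp.subset_closure (subset_insert _ _) (insert_subset hp subset_closure)
        exact h1.subset_connectedComponentIn (mem_insert_of_mem _ hyC)
          (insert_subset hpX hCX) (mem_insert _ _)
      exact hy (hgrow (closure C) hcC hCp.closure ⟨p, hp, hpX⟩ (subset_closure hyC))
    obtain ⟨z, hzC, hzD⟩ := hmeet
    refine ⟨C ∪ (D ∪ B), union_subset hCX hDBX, Or.inr (Or.inl hd0), Or.inl hyC,
      IsPreconnected.union z hzC hzD hCp hDB⟩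
  · rw [compl_compl]
    exact ⟨⟨1, h1X⟩, hXp⟩
  · intro z hz
    by_contra hz'
    exact hz (hSX hz')
  · -- `W \ D ⊆ V`
    rintro y ⟨hyX, hyD⟩
    by_contra hyV
    have hyB : y ∉ B := fun h => hyV (hBV h)
    have hyT : y ∈ T := by
      rintro (h | h)
      · exact hyD h
      · exact hyB h
    have hyb : y ∈ ball (0 : ℂ) 1 := by
      by_contra h
      exact hyX (hSX h)
    have hK : IsCompact (closedBall (0 : ℂ) 1 ∩ T) :=
      (isCompact_closedBall _ _).inter_right hTc
    have hsph : sphere (0 : ℂ) 1 ⊆ S := by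
      intro z hz
      rw [mem_sphere_zero_iff_norm] at hz
      rw [hS, mem_compl_iff, mem_ball_zero_iff, hz]
      exact lt_irrefl _
    obtain ⟨Z, hZK, hZc, hKZ, hyZ, hsZ⟩ := clopen_sep hK (isClosed_singleton (x := y))
      (isClosed_sphere (x := (0 : ℂ)) (ε := 1))
      (singleton_subset_iff.2 ⟨ball_subset_closedBall hyb, hyT⟩)
      (subset_inter sphere_subset_closedBall (hsph.trans hST)) (by
        rintro Y hY hYp ⟨z, hzY, hzy⟩ ⟨w, hwY, hws⟩
        rw [mem_singleton_iff] at hzy
        subst hzy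
        exact hyX (hgrow Y (hY.trans inter_subset_right) hYp ⟨w, hwY, hSX (hsph hws)⟩ hzY))
    have hyZ' : y ∈ Z := hyZ rfl
    have hZb : Z ⊆ ball (0 : ℂ) 1 := by
      intro z hz
      have h1 := (hZK hz).1
      by_contra h2
      have h3 : z ∈ sphere (0 : ℂ) 1 := by
        rw [mem_sphere_zero_iff_norm]
        rw [mem_closedBall_zero_iff] at h1
        rw [mem_ball_zero_iff, not_lt] at h2
        exact le_antisymm h1 h2
      exact (hsZ h3).2 hz
    -- `T \ Z` is closed
    have hTZ : IsClosed (T \ Z) := by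
      have : T \ Z = S ∪ ((closedBall (0 : ℂ) 1 ∩ T) \ Z) := by
        ext z
        constructor
        · rintro ⟨h1, h2⟩
          by_cases h3 : z ∈ closedBall (0 : ℂ) 1
          · exact Or.inr ⟨⟨h3, h1⟩, h2⟩
          · exact Or.inl (fun h => h3 (ball_subset_closedBall h))
        · rintro (h | h)
          · exact ⟨hST h, fun h' => h (hZb h')⟩
          · exact ⟨h.1.2, h.2⟩
      rw [this]
      exact hSc.union hKZ
    -- the separation
    have hopen : IsOpen (D ∪ (Z \ V)) := by
      have he : D ∪ (Z \ V) = D ∪ ((closure V)ᶜ ∩ (T \ Z)ᶜ) := by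
        ext z
        constructor
        · rintro (h | ⟨h1, h2⟩)
          · exact Or.inl h
          · by_cases hzD : z ∈ D
            · exact Or.inl hzD
            · refine Or.inr ⟨?_, fun h => h.2 h1⟩
              intro h
              rcases hVD ⟨h, hZb h1⟩ with h' | h'
              · exact h2 h'
              · exact hzD h'
        · rintro (h | ⟨h1, h2⟩)
          · exact Or.inl h
          · by_cases hzT : z ∈ T
            · have hzZ : z ∈ Z := by
                by_contra hzZ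
                exact h2 ⟨hzT, hzZ⟩
              exact Or.inr ⟨hzZ, fun h => h1 (subset_closure h)⟩
            · rw [hT, mem_compl_iff, not_not] at hzT
              rcases hzT with h | h
              · exact Or.inl h
              · exact absurd (subset_closure (hBV h)) h1
      rw [he]
      exact hDo.union (isClosed_closure.isOpen_compl.inter hTZ.isOpen_compl)
    have hsep := isPreconnected_closed_iff.1 hDcc.isPreconnected (Z \ V) (D ∪ (Z \ V))ᶜ
      (hZc.sdiff hVo) hopen.isClosed_compl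
      (by
        intro z hz
        by_cases h : z ∈ Z \ V
        · exact Or.inl h
        · refine Or.inr ?_
          rintro (h' | h')
          · exact hz h'
          · exact h h')
      ⟨y, hyD, hyZ', hyV⟩
      ⟨1, fun h => h1S (hDb h), by
        rintro (h' | h')
        · exact h1S (hDb h')
        · exact h1S (hZb h'.1)⟩
    obtain ⟨z, _, hz1, hz2⟩ := hsep
    exact hz2 (Or.inr hz1)
  · -- `W ≠ ball 0 1`
    intro hW
    have hXS : X = S := by rw [hS, ← hW, compl_compl]
    have hK : IsCompact (closedBall (0 : ℂ) 1 ∩ T) :=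
      (isCompact_closedBall _ _).inter_right hTc
    have hsph : sphere (0 : ℂ) 1 ⊆ S := by
      intro z hz
      rw [mem_sphere_zero_iff_norm] at hz
      rw [hS, mem_compl_iff, mem_ball_zero_iff, hz]
      exact lt_irrefl _
    obtain ⟨Z, hZK, hZc, hKZ, hsZ, hNZ⟩ := clopen_sep (C₂ := sphere q ρ ∩ Dᶜ) hK
      (isClosed_sphere (x := (0 : ℂ)) (ε := 1)) (isClosed_sphere.inter hDo.isClosed_compl)
      (subset_inter sphere_subset_closedBall (hsph.trans hST)) (by
        rintro z ⟨hz1, hz2⟩
        refine ⟨ball_subset_closedBall (hVb (hqV (sphere_subset_closedBall hz1))), ?_⟩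
        rintro (h | h)
        · exact hz2 h
        · rw [mem_sphere] at hz1
          rw [hB, mem_ball, hz1] at h
          exact lt_irrefl _ h) (by
        rintro Y hY hYp ⟨z, hzY, hzs⟩ ⟨w, hwY, hwN, -⟩
        have h1 : w ∈ X := hgrow Y (hY.trans inter_subset_right) hYp ⟨z, hzY, hSX (hsph hzs)⟩ hwY
        rw [hXS] at h1
        exact h1 (hVb (hqV (sphere_subset_closedBall hwN))))
    have hZq : ∀ z ∈ Z, z ∉ closedBall q ρ := by
      intro z hz hz'
      have h1 := hZK hz
      have h2 : z ∈ sphere q ρ := by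
        rw [mem_sphere]
        refine le_antisymm hz' ?_
        by_contra h
        exact h1.2 (Or.inr (not_le.1 h))
      exact (hNZ ⟨h2, fun h => h1.2 (Or.inl h)⟩).2 hz
    have hqqb : closedBall q ρ ⊆ ball (0 : ℂ) 1 := hqV.trans hVb
    have hsep := isPreconnected_closed_iff.1 hDcc.isPreconnected (Z ∪ S)
      (((closedBall (0 : ℂ) 1 ∩ T) \ Z) ∪ (closedBall q ρ ∩ Dᶜ))
      (hZc.union hSc) (hKZ.union (isClosed_closedBall.inter hDo.isClosed_compl))
      (by
        intro z hz
        by_cases h1 : z ∈ S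
        · exact Or.inl (Or.inr h1)
        by_cases h2 : z ∈ Z
        · exact Or.inl (Or.inl h2)
        by_cases h3 : z ∈ closedBall q ρ
        · exact Or.inr (Or.inr ⟨h3, hz⟩)
        refine Or.inr (Or.inl ⟨⟨?_, ?_⟩, h2⟩)
        · rw [hS, mem_compl_iff, not_not] at h1
          exact ball_subset_closedBall h1
        · rintro (h | h)
          · exact hz h
          · exact h3 (ball_subset_closedBall h))
      ⟨1, fun h => h1S (hDb h), Or.inr h1S⟩
      ⟨q, hqD', Or.inr ⟨mem_closedBall_self hρ.le, hqD'⟩⟩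
    obtain ⟨z, hzD, hz1, hz2⟩ := hsep
    rcases hz1 with h1 | h1
    · rcases hz2 with h2 | h2
      · exact h2.2 h1
      · exact hZq z h1 h2.1
    · rcases hz2 with h2 | h2
      · have h3 : z ∈ sphere (0 : ℂ) 1 := by
          rw [mem_sphere_zero_iff_norm]
          have h4 := h2.1.1
          rw [mem_closedBall_zero_iff] at h4
          rw [hS, mem_compl_iff, mem_ball_zero_iff, not_lt] at h1
          exact le_antisymm h4 h1
        exact h2.2 (hsZ h3)
      · exact h1 (hqqb h2.1)

end Y362.LW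

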