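import Mathlib
import Pool.Agent.Y242.LW.Stm
import Pool.Agent.Y362.LW.IdxB
import Pool.Agent.Y362.LW.Clu
import Pool.Agent.Helper202.Univ

/-!
# Existence of an outer obstacle (statement `LW242.S_M3`)
-/

open Set Filter Topology Metric Complex

namespace Y362.LW

open LW242

lemma sub_real_ne {z : ℂ} (hz : z ∈ Hp) (a : ℝ) : z - (a : ℂ) ≠ 0 := by
  intro h
  have h1 := congrArg Complex.im h
  simp only [Complex.sub_im, Complex.ofReal_im, sub_zero, Complex.zero_im] at h1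
  exact absurd h1 (ne_of_gt hz)

lemma quot_im {a b : ℝ} (hab : a < b) {z : ℂ} (hz : z ∈ Hp) :
    0 < ((z - (b : ℂ)) / (z - (a : ℂ))).im := by
  have hne := sub_real_ne hz a
  have hn : 0 < normSq (z - (a : ℂ)) := Complex.normSq_pos.2 hne
  have hz' : 0 < z.im := hz
  rw [Complex.div_im, ← sub_div]
  apply div_pos _ hn
  simp only [Complex.sub_im, Complex.ofReal_im, sub_zero, Complex.sub_re, Complex.ofReal_re]
  nlinarith [mul_pos hz' (sub_pos.2 hab)]

lemma quot_slit {a b : ℝ} (hab : a < b) {z : ℂ} (hz : z ∈ Hp) :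
    (z - (b : ℂ)) / (z - (a : ℂ)) ∈ slitPlane := by
  rw [Complex.mem_slitPlane_iff]
  exact Or.inr (quot_im hab hz).ne'

lemma quot_diff {a b : ℝ} (hab : a < b) :
    DifferentiableOn ℂ (fun z : ℂ => Complex.log ((z - (b : ℂ)) / (z - (a : ℂ)))) Hp := by
  intro z hz
  have h1 : DifferentiableAt ℂ (fun z : ℂ => (z - (b : ℂ)) / (z - (a : ℂ))) z :=
    (differentiableAt_id.sub_const _).div (differentiableAt_id.sub_const _) (sub_real_ne hz a)
  exact (h1.clog (quot_slit hab hz)).differentiableWithinAt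

lemma quot_eq {a b : ℝ} {w : ℂ} (hw : w - (a : ℂ) ≠ 0) :
    (w - (b : ℂ)) / (w - (a : ℂ)) = 1 - ((b : ℂ) - a) / (w - (a : ℂ)) := by
  field_simp
  ring

lemma tendsto_inv_c : Tendsto (fun y : ℝ => ((y⁻¹ : ℝ) : ℂ)) atTop (𝓝 0) := by
  have := (Complex.continuous_ofReal.tendsto 0).comp tendsto_inv_atTop_zero
  rw [Complex.ofReal_zero] at this
  exact this

lemma log_asymp {a b : ℝ} (hab : a < b) {w : ℝ → ℂ}
    (hw : Tendsto (fun y : ℝ => w y / ((y : ℂ) * Complex.I)) atTop (𝓝 1)) :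
    Tendsto (fun y : ℝ => (y : ℂ) * Complex.log ((w y - (b : ℂ)) / (w y - (a : ℂ)))) atTop
      (𝓝 (Complex.I * ((b : ℂ) - a))) := by
  have hinv := tendsto_inv_c
  have h1 : Tendsto (fun y : ℝ => (w y - (a : ℂ)) / ((y : ℂ) * Complex.I)) atTop (𝓝 1) := by
    have h2 : Tendsto (fun y : ℝ => w y / ((y : ℂ) * Complex.I)
        - ((y⁻¹ : ℝ) : ℂ) * ((a : ℂ) / Complex.I)) atTop (𝓝 (1 - 0 * ((a : ℂ) / Complex.I))) :=
      hw.sub (hinv.mul_const _)
    rw [zero_mul, sub_zero] at h2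
    refine h2.congr' ?_
    filter_upwards [eventually_gt_atTop (0 : ℝ)] with y hy
    have hy' : (y : ℂ) ≠ 0 := by exact_mod_cast hy.ne'
    have hI := Complex.I_ne_zero
    push_cast
    field_simp
  have hne : ∀ᶠ y : ℝ in atTop, w y - (a : ℂ) ≠ 0 := by
    filter_upwards [h1.eventually_ne one_ne_zero] with y hy h0
    rw [h0, zero_div] at hy
    exact hy rfl
  -- `y s → -I (b - a)`
  have h3 : Tendsto (fun y : ℝ => (y : ℂ) * (-(((b : ℂ) - a) / (w y - (a : ℂ))))) atTop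
      (𝓝 (Complex.I * ((b : ℂ) - a))) := by
    have h4 : Tendsto (fun y : ℝ => (Complex.I * ((b : ℂ) - a)) *
        ((w y - (a : ℂ)) / ((y : ℂ) * Complex.I))⁻¹) atTop
        (𝓝 ((Complex.I * ((b : ℂ) - a)) * 1⁻¹)) := (h1.inv₀ one_ne_zero).const_mul _
    rw [inv_one, mul_one] at h4
    refine h4.congr' ?_
    filter_upwards [eventually_gt_atTop (0 : ℝ), hne] with y hy hw0
    have hy' : (y : ℂ) ≠ 0 := by exact_mod_cast hy.ne'
    have hI := Complex.I_ne_zero
    rw [inv_div]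
    have hII : Complex.I * Complex.I = -1 := Complex.I_mul_I
    field_simp
    linear_combination ((b : ℂ) - a) * hII
  have h5 : Tendsto (fun y : ℝ => -(((b : ℂ) - a) / (w y - (a : ℂ)))) atTop (𝓝 0) := by
    have h6 := hinv.mul h3
    rw [zero_mul] at h6
    refine h6.congr' ?_
    filter_upwards [eventually_gt_atTop (0 : ℝ)] with y hy
    have hy' : (y : ℂ) ≠ 0 := by exact_mod_cast hy.ne'
    push_cast
    field_simp
  have hba : (b : ℂ) - a ≠ 0 := by
    rw [← Complex.ofReal_sub]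
    exact_mod_cast (sub_pos.2 hab).ne'
  have h7 : Tendsto (fun y : ℝ => -(((b : ℂ) - a) / (w y - (a : ℂ)))) atTop (𝓝[≠] 0) := by
    refine tendsto_nhdsWithin_iff.2 ⟨h5, ?_⟩
    filter_upwards [hne] with y hy
    simp only [mem_compl_iff, mem_singleton_iff, neg_eq_zero]
    exact div_ne_zero hba hy
  have hlog : HasDerivAt Complex.log 1 1 := by
    have := Complex.hasDerivAt_log (show (1 : ℂ) ∈ slitPlane from Complex.one_mem_slitPlane)
    rwa [inv_one] at this
  have h8 := hlog.tendsto_slope_zero.comp h7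
  have h9 := h3.mul h8
  rw [mul_one] at h9
  refine h9.congr' ?_
  filter_upwards [hne] with y hy
  have hs : -(((b : ℂ) - a) / (w y - (a : ℂ))) ≠ 0 := neg_ne_zero.2 (div_ne_zero hba hy)
  rw [quot_eq hy]
  simp only [Function.comp_apply, Complex.log_one, sub_zero, smul_eq_mul]
  rw [← sub_eq_add_neg]
  field_simp

/-- cluster values of `φ` at real points to the right of the last fixed point -/
lemma cluster_right (hA : S_IDXa) (hB : S_IDXb) {φ : ℂ → ℂ} {b : ℝ} (hφ : Adm φ b b)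
    (hno : ∀ p ∈ Hp, p ∉ φ '' Hp → ¬ RtI φ b b p) {t : ℝ} (ht : b < t) {U : Ultrafilter ℂ}
    (hU1 : (U : Filter ℂ) ≤ 𝓝[Hp] (t : ℂ)) {q : ℂ} (hq : Tendsto φ U (𝓝 q)) :
    q.im = 0 ∧ b ≤ q.re := by
  obtain ⟨a1, a2, a3, a4, a5, a6, a7⟩ := hA φ b b hφ
  have hUt : (U : Filter ℂ) ≤ 𝓝 (t : ℂ) := hU1.trans nhdsWithin_le_nhds
  have hUH : ∀ᶠ z in (U : Filter ℂ), z ∈ Hp := hU1 self_mem_nhdsWithin
  have hhH : ∀ᶠ z in (U : Filter ℂ), φ z ∈ Hp := by
    filter_upwards [hUH] with z hz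
    exact hφ.1.2.1 hz
  have hR : ∀ᶠ z in (U : Filter ℂ), RtI φ b b (φ z) := by
    have h1 : Tendsto (fun z : ℂ => z.re) U (𝓝 t) := by
      have := (Complex.continuous_re.tendsto (t : ℂ)).mono_left hUt
      simpa using this
    filter_upwards [hUH, h1.eventually (lt_mem_nhds ht)] with z hz hz'
    exact (hB.1 φ b b hφ).1 z hz hz'
  have hqim : 0 ≤ q.im := by
    have h1 : Tendsto (fun z => (φ z).im) U (𝓝 q.im) :=
      (Complex.continuous_im.tendsto q).comp hq
    refine ge_of_tendsto h1 ?_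
    filter_upwards [hhH] with z hz
    exact hz.le
  rcases lt_or_eq_of_le hqim with hpos | hzero
  · exfalso
    by_cases hqh : q ∈ φ '' Hp
    · obtain ⟨w, hw, rfl⟩ := hqh
      have h1 := inv_lim hφ.1 hUH hw hq
      have h2 : (t : ℂ) = w := tendsto_nhds_unique' (U.neBot) hUt h1
      rw [← h2] at hw
      simp [Hp] at hw
    · have hq1 : q ∉ curve φ b := fun h' => hqh (curve_sub φ b h')
      obtain ⟨z, h1, h3⟩ := (hR.and (hq.eventually (a4 q hpos hq1))).exists
      exact hno q hpos hqh (h3.1.1 h1)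
  · have hqr : q = ((q.re : ℝ) : ℂ) := by
      apply Complex.ext
      · simp
      · simp [hzero]
    have hq' : Tendsto φ U (𝓝[Hp] ((q.re : ℝ) : ℂ)) := by
      rw [← hqr]
      exact tendsto_nhdsWithin_iff.2 ⟨hq, hhH⟩
    refine ⟨hzero.symm, ?_⟩
    by_contra hlt
    rw [not_le] at hlt
    obtain ⟨z, e1, e2⟩ := (hR.and (hq'.eventually (a6 q.re hlt))).exists
    exact a3 _ e1 e2

/-- cluster values of `φ` at real points to the left of the first fixed point -/
lemma cluster_left (hA : S_IDXa) (hB : S_IDXb) {φ : ℂ → ℂ} {a : ℝ} (hφ : Adm φ a a)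
    (hno : ∀ p ∈ Hp, p ∉ φ '' Hp → ¬ LtI φ a a p) {t : ℝ} (ht : t < a) {U : Ultrafilter ℂ}
    (hU1 : (U : Filter ℂ) ≤ 𝓝[Hp] (t : ℂ)) {q : ℂ} (hq : Tendsto φ U (𝓝 q)) :
    q.im = 0 ∧ q.re ≤ a := by
  obtain ⟨a1, a2, a3, a4, a5, a6, a7⟩ := hA φ a a hφ
  have hUt : (U : Filter ℂ) ≤ 𝓝 (t : ℂ) := hU1.trans nhdsWithin_le_nhds
  have hUH : ∀ᶠ z in (U : Filter ℂ), z ∈ Hp := hU1 self_mem_nhdsWithin
  have hhH : ∀ᶠ z in (U : Filter ℂ), φ z ∈ Hp := by
    filter_upwards [hUH] with z hz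
    exact hφ.1.2.1 hz
  have hR : ∀ᶠ z in (U : Filter ℂ), LtI φ a a (φ z) := by
    have h1 : Tendsto (fun z : ℂ => z.re) U (𝓝 t) := by
      have := (Complex.continuous_re.tendsto (t : ℂ)).mono_left hUt
      simpa using this
    filter_upwards [hUH, h1.eventually (gt_mem_nhds ht)] with z hz hz'
    exact (hB.1 φ a a hφ).2.1 z hz hz'
  have hqim : 0 ≤ q.im := by
    have h1 : Tendsto (fun z => (φ z).im) U (𝓝 q.im) :=
      (Complex.continuous_im.tendsto q).comp hq
    refine ge_of_tendsto h1 ?_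
    filter_upwards [hhH] with z hz
    exact hz.le
  rcases lt_or_eq_of_le hqim with hpos | hzero
  · exfalso
    by_cases hqh : q ∈ φ '' Hp
    · obtain ⟨w, hw, rfl⟩ := hqh
      have h1 := inv_lim hφ.1 hUH hw hq
      have h2 : (t : ℂ) = w := tendsto_nhds_unique' (U.neBot) hUt h1
      rw [← h2] at hw
      simp [Hp] at hw
    · have hq1 : q ∉ curve φ a := fun h' => hqh (curve_sub φ a h')
      obtain ⟨z, h1, h3⟩ := (hR.and (hq.eventually (a4 q hpos hq1))).exists
      exact hno q hpos hqh (h3.2.1 h1)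
  · have hqr : q = ((q.re : ℝ) : ℂ) := by
      apply Complex.ext
      · simp
      · simp [hzero]
    have hq' : Tendsto φ U (𝓝[Hp] ((q.re : ℝ) : ℂ)) := by
      rw [← hqr]
      exact tendsto_nhdsWithin_iff.2 ⟨hq, hhH⟩
    refine ⟨hzero.symm, ?_⟩
    by_contra hlt
    rw [not_le] at hlt
    obtain ⟨z, e1, e2⟩ := (hR.and (hq'.eventually (a5 q.re hlt))).exists
    exact a3 _ e2 e1

/-- the argument of the quotient tends to `0` along the map -/
lemma arg_small {φ : ℂ → ℂ} {α β a b t : ℝ} (haα : a < α) (hαβ : α < β) (hβb : β < b)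
    (hcl : ∀ (U : Ultrafilter ℂ), (U : Filter ℂ) ≤ 𝓝[Hp] (t : ℂ) → ∀ q, Tendsto φ U (𝓝 q) →
      q.im = 0 ∧ (b ≤ q.re ∨ q.re ≤ a)) {ε : ℝ} (hε : 0 < ε) :
    ∀ᶠ z in 𝓝[Hp] (t : ℂ), ((φ z - (β : ℂ)) / (φ z - (α : ℂ))).arg < ε := by
  by_contra hcon
  rw [not_eventually, frequently_iff_neBot] at hcon
  have := hcon
  set U : Ultrafilter ℂ := Ultrafilter.of
    (𝓝[Hp] (t : ℂ) ⊓ 𝓟 {z | ¬ ((φ z - (β : ℂ)) / (φ z - (α : ℂ))).arg < ε}) with hU
  have hUle : (U : Filter ℂ) ≤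
      𝓝[Hp] (t : ℂ) ⊓ 𝓟 {z | ¬ ((φ z - (β : ℂ)) / (φ z - (α : ℂ))).arg < ε} :=
    Ultrafilter.of_le _
  have hU1 : (U : Filter ℂ) ≤ 𝓝[Hp] (t : ℂ) := hUle.trans inf_le_left
  have hU2 : ∀ᶠ z in (U : Filter ℂ), ¬ ((φ z - (β : ℂ)) / (φ z - (α : ℂ))).arg < ε :=
    le_principal_iff.1 (hUle.trans inf_le_right)
  -- it suffices to show convergence to a positive real number
  have key : ∀ r : ℝ, 0 < r → Tendsto (fun z => (φ z - (β : ℂ)) / (φ z - (α : ℂ))) U
      (𝓝 (r : ℂ)) → False := by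
    intro r hr hlim
    have h1 : (r : ℂ) ∈ slitPlane := by
      rw [Complex.mem_slitPlane_iff]
      left
      simpa using hr
    have h2 := (Complex.continuousAt_arg h1).tendsto.comp hlim
    rw [Complex.arg_ofReal_of_nonneg hr.le] at h2
    obtain ⟨z, e1, e2⟩ := (hU2.and (h2.eventually (gt_mem_nhds hε))).exists
    exact e1 e2
  rcases ultra_dichotomy U φ with ⟨q, hq⟩ | hinf
  · obtain ⟨hq0, hqab⟩ := hcl U hU1 q hq
    have hqr : q = ((q.re : ℝ) : ℂ) := by
      apply Complex.ext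
      · simp
      · simp [hq0]
    have hne : q - (α : ℂ) ≠ 0 := by
      rw [hqr, ← Complex.ofReal_sub]
      have : q.re - α ≠ 0 := by
        rcases hqab with h | h
        · intro h0; linarith
        · intro h0; linarith
      exact_mod_cast this
    have h1 : Tendsto (fun z => (φ z - (β : ℂ)) / (φ z - (α : ℂ))) U
        (𝓝 ((q - (β : ℂ)) / (q - (α : ℂ)))) :=
      (hq.sub tendsto_const_nhds).div (hq.sub tendsto_const_nhds) hne
    have h2 : (q - (β : ℂ)) / (q - (α : ℂ)) = (((q.re - β) / (q.re - α) : ℝ) : ℂ) := by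
      conv_lhs => rw [hqr]
      push_cast
      rfl
    rw [h2] at h1
    refine key _ ?_ h1
    rcases hqab with h | h
    · exact div_pos (by linarith) (by linarith)
    · exact div_pos_of_neg_of_neg (by linarith) (by linarith)
  · refine key 1 one_pos ?_
    have h1 : Tendsto (fun z => ‖φ z - (α : ℂ)‖) U atTop := by
      refine tendsto_atTop_mono (f := fun z => ‖φ z‖ + (-|α|)) ?_
        (tendsto_atTop_add_const_right _ _ hinf)
      intro z
      have h2 : ‖φ z‖ ≤ ‖φ z - (α : ℂ)‖ + ‖(α : ℂ)‖ := by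
        have := norm_add_le (φ z - (α : ℂ)) (α : ℂ)
        simpa using this
      rw [Complex.norm_real, Real.norm_eq_abs] at h2
      linarith
    have h3 : Tendsto (fun z => ((β : ℂ) - α) / (φ z - (α : ℂ))) U (𝓝 0) := by
      rw [tendsto_zero_iff_norm_tendsto_zero]
      simp only [norm_div]
      exact h1.const_div_atTop _
    have h4 : Tendsto (fun z => 1 - ((β : ℂ) - α) / (φ z - (α : ℂ))) U (𝓝 (1 - 0)) :=
      tendsto_const_nhds.sub h3
    rw [sub_zero] at h4
    rw [Complex.ofReal_one]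
    refine h4.congr' ?_
    filter_upwards [h1.eventually_gt_atTop 0] with z hz
    rw [quot_eq (norm_pos_iff.1 hz)]

/-- the argument of the quotient tends to `π` between the two points -/
lemma arg_big {a b t : ℝ} (hat : a < t) (htb : t < b) {ε : ℝ} (hε : 0 < ε) :
    ∀ᶠ z in 𝓝[Hp] (t : ℂ), Real.pi - ε < ((z - (b : ℂ)) / (z - (a : ℂ))).arg := by
  have hne : (t : ℂ) - (a : ℂ) ≠ 0 := by
    rw [← Complex.ofReal_sub]
    exact_mod_cast (sub_pos.2 hat).ne'
  have h1 : Tendsto (fun z : ℂ => (z - (b : ℂ)) / (z - (a : ℂ))) (𝓝[Hp] (t : ℂ))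
      (𝓝 (((t : ℂ) - (b : ℂ)) / ((t : ℂ) - (a : ℂ)))) := by
    refine Tendsto.mono_left ?_ nhdsWithin_le_nhds
    exact (tendsto_id.sub tendsto_const_nhds).div (tendsto_id.sub tendsto_const_nhds) hne
  have h2 : ((t : ℂ) - (b : ℂ)) / ((t : ℂ) - (a : ℂ)) = (((t - b) / (t - a) : ℝ) : ℂ) := by
    push_cast
    rfl
  rw [h2] at h1
  have h3 : Tendsto (fun z : ℂ => (z - (b : ℂ)) / (z - (a : ℂ))) (𝓝[Hp] (t : ℂ))
      (𝓝[{z : ℂ | 0 ≤ z.im}] (((t - b) / (t - a) : ℝ) : ℂ)) := by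
    refine tendsto_nhdsWithin_iff.2 ⟨h1, ?_⟩
    filter_upwards [self_mem_nhdsWithin] with z hz
    exact (quot_im (hat.trans htb) hz).le
  have hneg : (t - b) / (t - a) < 0 := div_neg_of_neg_of_pos (by linarith) (by linarith)
  have h4 := (Complex.continuousWithinAt_arg_of_re_neg_of_im_zero
    (z := (((t - b) / (t - a) : ℝ) : ℂ)) (by rw [Complex.ofReal_re]; exact hneg)
    (Complex.ofReal_im _)).tendsto.comp h3
  rw [Complex.arg_ofReal_of_neg hneg] at h4
  exact h4.eventually (lt_mem_nhds (by linarith))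

/-- comparison of harmonic measures -/
lemma arg_compare (hM : S_MAX) {φ : ℂ → ℂ} {α β a b : ℝ} (hφ : DifferentiableOn ℂ φ Hp)
    (hmap : MapsTo φ Hp Hp) (haα : a < α) (hαβ : α < β) (hβb : β < b)
    (hcl : ∀ t : ℝ, (t < a ∨ b < t) → ∀ (U : Ultrafilter ℂ), (U : Filter ℂ) ≤ 𝓝[Hp] (t : ℂ) →
      ∀ q, Tendsto φ U (𝓝 q) → q.im = 0 ∧ (b ≤ q.re ∨ q.re ≤ a)) :
    ∀ z ∈ Hp, ((φ z - (β : ℂ)) / (φ z - (α : ℂ))).arg ≤ ((z - (b : ℂ)) / (z - (a : ℂ))).arg := by
  have hab : a < b := haα.trans (hαβ.trans hβb)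
  set S : ℂ → ℂ := fun z => Complex.exp (Complex.I *
    (Complex.log ((z - (b : ℂ)) / (z - (a : ℂ))) -
      Complex.log ((φ z - (β : ℂ)) / (φ z - (α : ℂ))))) with hS
  have hnorm : ∀ z, ‖S z‖ = Real.exp (((φ z - (β : ℂ)) / (φ z - (α : ℂ))).arg -
      ((z - (b : ℂ)) / (z - (a : ℂ))).arg) := by
    intro z
    rw [hS]
    simp only [Complex.norm_exp]
    congr 1
    simp only [Complex.mul_re, Complex.I_re, Complex.I_im, Complex.sub_im, Complex.log_im,
      Complex.sub_re]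
    ring
  have hdiff : DifferentiableOn ℂ S Hp := by
    refine DifferentiableOn.cexp (DifferentiableOn.const_mul ?_ _)
    exact (quot_diff hab).sub ((quot_diff hαβ).comp hφ hmap)
  have harg0 : ∀ z ∈ Hp, 0 ≤ ((z - (b : ℂ)) / (z - (a : ℂ))).arg := fun z hz =>
    Complex.arg_nonneg_iff.2 (quot_im hab hz).le
  have hmax := hM S {a, b} (Real.exp Real.pi) (Set.toFinite _) hdiff
    (by
      intro z hz
      rw [hnorm]
      apply Real.exp_le_exp.2
      have h1 := Complex.arg_le_pi ((φ z - (β : ℂ)) / (φ z - (α : ℂ)))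
      have h2 := harg0 z hz
      linarith)
    (by
      intro t ht δ hδ
      have hlog : 0 < Real.log (1 + δ) := Real.log_pos (by linarith)
      have hexp : ∀ s : ℝ, s < Real.log (1 + δ) → Real.exp s ≤ 1 + δ := by
        intro s hs
        have := Real.exp_le_exp.2 hs.le
        rwa [Real.exp_log (by linarith)] at this
      have ht' : t ≠ a ∧ t ≠ b := by
        simpa [not_or] using ht
      by_cases hin : a < t ∧ t < b
      · filter_upwards [arg_big hin.1 hin.2 hlog] with z hz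
        rw [hnorm]
        apply hexp
        have h1 := Complex.arg_le_pi ((φ z - (β : ℂ)) / (φ z - (α : ℂ)))
        linarith
      · have hout : t < a ∨ b < t := by
          by_contra hno
          push Not at hno
          exact hin ⟨lt_of_le_of_ne hno.1 ht'.1.symm, lt_of_le_of_ne hno.2 ht'.2⟩
        filter_upwards [arg_small haα hαβ hβb (hcl t hout) hlog, self_mem_nhdsWithin]
          with z hz hz'
        rw [hnorm]
        apply hexp
        have h2 := harg0 z hz'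
        linarith)
  intro z hz
  have h1 := hmax z hz
  rw [hnorm, Real.exp_le_one_iff] at h1
  linarith

/-- `y ↦ ‖z - i y‖ / y → 1` -/
lemma norm_ratio (z : ℂ) {w : ℝ → ℂ}
    (hw : Tendsto (fun y : ℝ => w y / ((y : ℂ) * Complex.I)) atTop (𝓝 1)) :
    Tendsto (fun y : ℝ => ‖z - w y‖ ^ 2 / y ^ 2) atTop (𝓝 1) := by
  have hinv := tendsto_inv_c
  have h1 : Tendsto (fun y : ℝ => ((y⁻¹ : ℝ) : ℂ) * z - Complex.I * (w y / ((y : ℂ) * Complex.I)))
      atTop (𝓝 (0 * z - Complex.I * 1)) := (hinv.mul_const z).sub (hw.const_mul _)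
  have h2 := ((continuous_norm.tendsto _).comp h1).pow 2
  have h3 : ‖0 * z - Complex.I * 1‖ ^ 2 = 1 := by simp
  rw [h3] at h2
  refine h2.congr' ?_
  filter_upwards [eventually_gt_atTop (0 : ℝ)] with y hy
  have hy' : (y : ℂ) ≠ 0 := by exact_mod_cast hy.ne'
  have hI := Complex.I_ne_zero
  have h4 : ((y⁻¹ : ℝ) : ℂ) * z - Complex.I * (w y / ((y : ℂ) * Complex.I)) =
      (z - w y) / (y : ℂ) := by
    push_cast
    field_simp
  simp only [Function.comp_apply]
  rw [h4, norm_div, Complex.norm_real, Real.norm_of_nonneg hy.le, div_pow]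

lemma im_ratio {φ : ℂ → ℂ}
    (hw : Tendsto (fun y : ℝ => φ ((y : ℂ) * Complex.I) / ((y : ℂ) * Complex.I)) atTop (𝓝 1)) :
    Tendsto (fun y : ℝ => (φ ((y : ℂ) * Complex.I)).im / y) atTop (𝓝 1) := by
  have h1 := (Complex.continuous_re.tendsto _).comp hw
  rw [Complex.one_re] at h1
  refine h1.congr' ?_
  filter_upwards [eventually_gt_atTop (0 : ℝ)] with y hy
  have h6 : φ (y * Complex.I) / (y * Complex.I) = -(Complex.I * φ (y * Complex.I)) / (y : ℂ) := by
    have hy' : (y : ℂ) ≠ 0 := by exact_mod_cast hy.ne'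
    field_simp
    ring_nf
    rw [Complex.I_sq]
    ring
  simp only [Function.comp_apply]
  rw [h6, Complex.div_ofReal_re]
  congr 1
  simp

/-- the case without gaps: `φ` is bijective -/
lemma m3_zero (hSP : S_SP) (hBD : S_JBD) {φ : ℂ → ℂ} {x C : ℝ} (hφ : Uni φ)
    (him : ∀ z ∈ Hp, z.im ≤ (φ z).im) (hJul : Jul φ x x C) (hsurj : ∀ p ∈ Hp, p ∈ φ '' Hp)
    (hw : Tendsto (fun y : ℝ => φ ((y : ℂ) * Complex.I) / ((y : ℂ) * Complex.I)) atTop (𝓝 1)) :
    ∀ z ∈ Hp, φ z = z := by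
  have himage : φ '' Hp = Hp := subset_antisymm hφ.2.1.image_subset hsurj
  set ψ := Function.invFunOn φ Hp with hψ
  have hψd : DifferentiableOn ℂ ψ Hp := by
    intro p hp
    exact (Pool.Agent.Helper202.Univ.differentiableAt_inv isOpen_Hp hφ.1 hφ.2.2
      (hsurj p hp)).differentiableWithinAt
  have hψm : ∀ p ∈ Hp, ψ p ∈ Hp := fun p hp => Function.invFunOn_mem (hsurj p hp)
  have hψφ : ∀ z ∈ Hp, ψ (φ z) = z := fun z hz => hφ.2.2.leftInvOn_invFunOn hz
  have hrev : ∀ z ∈ Hp, ∀ w ∈ Hp,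
      ‖z - w‖ ^ 2 * (φ z).im * (φ w).im ≤ ‖φ z - φ w‖ ^ 2 * z.im * w.im := by
    intro z hz w hw'
    have := hSP ψ hψd (fun p hp => (hψm p hp).le) (φ z) (hφ.2.1 hz) (φ w) (hφ.2.1 hw')
    rwa [hψφ z hz, hψφ w hw'] at this
  have hiy : Tendsto (fun y : ℝ => ((y : ℂ) * Complex.I) / ((y : ℂ) * Complex.I)) atTop (𝓝 1) := by
    refine tendsto_const_nhds.congr' ?_
    filter_upwards [eventually_gt_atTop (0 : ℝ)] with y hy
    have hy' : (y : ℂ) ≠ 0 := by exact_mod_cast hy.ne'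
    rw [div_self (mul_ne_zero hy' Complex.I_ne_zero)]
  have himeq : ∀ z ∈ Hp, (φ z).im = z.im := by
    intro z hz
    refine le_antisymm ?_ (him z hz)
    have h1 : Tendsto (fun y : ℝ => ‖z - (y : ℂ) * Complex.I‖ ^ 2 / y ^ 2 * (φ z).im *
        ((φ ((y : ℂ) * Complex.I)).im / y)) atTop (𝓝 (1 * (φ z).im * 1)) :=
      ((norm_ratio z hiy).mul_const _).mul (im_ratio hw)
    have h2 : Tendsto (fun y : ℝ => ‖φ z - φ ((y : ℂ) * Complex.I)‖ ^ 2 / y ^ 2 * z.im) atTop
        (𝓝 (1 * z.im)) := (norm_ratio (φ z) hw).mul_const _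
    rw [one_mul, mul_one] at h1
    rw [one_mul] at h2
    refine le_of_tendsto_of_tendsto h1 h2 ?_
    filter_upwards [eventually_gt_atTop (0 : ℝ)] with y hy
    have h3 := hrev z hz ((y : ℂ) * Complex.I) (by simp [Hp, hy])
    have h4 : ((y : ℂ) * Complex.I).im = y := by simp
    rw [h4] at h3
    have h5 : ‖z - (y : ℂ) * Complex.I‖ ^ 2 / y ^ 2 * (φ z).im *
        ((φ ((y : ℂ) * Complex.I)).im / y) =
        (‖z - (y : ℂ) * Complex.I‖ ^ 2 * (φ z).im * (φ ((y : ℂ) * Complex.I)).im) / y ^ 3 := by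
      field_simp
    have h6 : ‖φ z - φ ((y : ℂ) * Complex.I)‖ ^ 2 / y ^ 2 * z.im =
        (‖φ z - φ ((y : ℂ) * Complex.I)‖ ^ 2 * z.im * y) / y ^ 3 := by
      field_simp
    rw [h5, h6]
    exact div_le_div_of_nonneg_right h3 (by positivity)
  have hconst : ∀ z ∈ Hp, φ z - z = φ Complex.I - Complex.I := by
    intro z hz
    have h1 := hSP (fun z => φ z - z) (hφ.1.sub differentiableOn_id)
      (fun z hz => by simp [himeq z hz]) z hz Complex.I I_mem_Hp
    have h2 : (φ z - z).im = 0 := by simp [himeq z hz]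
    simp only [h2, mul_zero, zero_mul, Complex.I_im, mul_one] at h1
    have h3 : ‖φ z - z - (φ Complex.I - Complex.I)‖ ^ 2 ≤ 0 := by
      by_contra hlt
      rw [not_le] at hlt
      have := mul_pos hlt hz
      linarith
    have h4 : ‖φ z - z - (φ Complex.I - Complex.I)‖ = 0 := by
      have := sq_nonneg ‖φ z - z - (φ Complex.I - Complex.I)‖
      exact pow_eq_zero_iff (two_ne_zero) |>.1 (le_antisymm h3 this)
    exact sub_eq_zero.1 (norm_eq_zero.1 h4)
  have hlim := (hBD φ x x C hφ.2.1 hJul).2.2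
  have hlim2 : Tendsto (fun e : ℝ => (x : ℂ) + e * Complex.I) (𝓝[>] 0) (𝓝 (x : ℂ)) := by
    have h4 : Tendsto (fun e : ℝ => (x : ℂ) + e * Complex.I) (𝓝 0)
        (𝓝 ((x : ℂ) + ((0 : ℝ) : ℂ) * Complex.I)) :=
      (continuous_const.add (Complex.continuous_ofReal.mul continuous_const)).tendsto 0
    rw [Complex.ofReal_zero, zero_mul, add_zero] at h4
    exact h4.mono_left nhdsWithin_le_nhds
  have h5 := hlim.sub hlim2
  rw [sub_self] at h5
  have h6 : Tendsto (fun e : ℝ => φ ((x : ℂ) + e * Complex.I) - ((x : ℂ) + e * Complex.I))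
      (𝓝[>] 0) (𝓝 (φ Complex.I - Complex.I)) := by
    refine tendsto_const_nhds.congr' ?_
    filter_upwards [self_mem_nhdsWithin] with e he
    have he' : 0 < e := he
    exact (hconst _ (by simpa [Hp] using he')).symm
  have h7 : φ Complex.I - Complex.I = 0 := tendsto_nhds_unique h6 h5
  intro z hz
  have := hconst z hz
  rw [h7] at this
  exact sub_eq_zero.1 this

theorem m3 (hM : S_MAX) (hA : S_IDXa) (hB : S_IDXb) (hSP : S_SP) (hBD : S_JBD) : S_M3 := by
  intro n φ x A hb hno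
  have him : ∀ z ∈ Hp, z.im ≤ (φ z).im := by
    intro z hz
    have := hb.im_ge z hz
    rwa [one_mul] at this
  have hadm : ∀ j ≤ n, Adm φ (x j) (x j) := fun j hj => ⟨hb.uni, him, A j, hb.jul j hj⟩
  have hlim : Tendsto (fun y : ℝ => φ ((y : ℂ) * Complex.I) / ((y : ℂ) * Complex.I)) atTop
      (𝓝 1) := by
    have := hb.lim
    rwa [Complex.ofReal_one] at this
  rcases Nat.eq_zero_or_pos n with hn | hn
  · subst hn
    refine m3_zero hSP hBD hb.uni him (hb.jul 0 le_rfl) ?_ hlim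
    intro p hp
    by_contra hpφ
    have h1 : p ∉ curve φ (x 0) := fun h' => hpφ (curve_sub φ _ h')
    rcases (hB.1 φ (x 0) (x 0) (hadm 0 le_rfl)).2.2 p hp h1 with h | h
    · exact (hno p hp hpφ).2 h
    · exact (hno p hp hpφ).1 h
  · set a := x 0 with ha
    set b := x n with hb'
    have hab : a < b := hb.mono 0 n hn le_rfl
    have hcl : ∀ t : ℝ, (t < a ∨ b < t) → ∀ (U : Ultrafilter ℂ), (U : Filter ℂ) ≤ 𝓝[Hp] (t : ℂ) →
        ∀ q, Tendsto φ U (𝓝 q) → q.im = 0 ∧ (b ≤ q.re ∨ q.re ≤ a) := by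
      rintro t (ht | ht) U hU q hq
      · obtain ⟨h1, h2⟩ := cluster_left hA hB (hadm 0 (Nat.zero_le n))
          (fun p hp hp' => (hno p hp hp').1) ht hU hq
        exact ⟨h1, Or.inr h2⟩
      · obtain ⟨h1, h2⟩ := cluster_right hA hB (hadm n le_rfl)
          (fun p hp hp' => (hno p hp hp').2) ht hU hq
        exact ⟨h1, Or.inl h2⟩
    -- limit of the comparison
    have hcomp : ∀ z ∈ Hp, ((φ z - (b : ℂ)) / (φ z - (a : ℂ))).arg ≤
        ((z - (b : ℂ)) / (z - (a : ℂ))).arg := by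
      intro z hz
      have hw := hb.uni.2.1 hz
      have h1 : Tendsto (fun e : ℝ => (φ z - ((b - e : ℝ) : ℂ)) / (φ z - ((a + e : ℝ) : ℂ)))
          (𝓝[>] 0) (𝓝 ((φ z - (b : ℂ)) / (φ z - (a : ℂ)))) := by
        have h2 : Tendsto (fun e : ℝ => (φ z - ((b - e : ℝ) : ℂ)) / (φ z - ((a + e : ℝ) : ℂ)))
            (𝓝 0) (𝓝 ((φ z - ((b - 0 : ℝ) : ℂ)) / (φ z - ((a + 0 : ℝ) : ℂ)))) := by
          refine Tendsto.div ?_ ?_ (sub_real_ne hw _)
          · exact tendsto_const_nhds.sub ((Complex.continuous_ofReal.tendsto _).comp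
              (tendsto_const_nhds.sub tendsto_id))
          · exact tendsto_const_nhds.sub ((Complex.continuous_ofReal.tendsto _).comp
              (tendsto_const_nhds.add tendsto_id))
        rw [sub_zero, add_zero] at h2
        exact h2.mono_left nhdsWithin_le_nhds
      have h3 := (Complex.continuousAt_arg (quot_slit hab hw)).tendsto.comp h1
      refine le_of_tendsto h3 ?_
      have h4 : ∀ᶠ e : ℝ in 𝓝[>] 0, e < (b - a) / 2 :=
        nhdsWithin_le_nhds (gt_mem_nhds (by linarith))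
      filter_upwards [h4, self_mem_nhdsWithin] with e he1 he2
      have he3 : 0 < e := he2
      exact arg_compare hM hb.uni.1 hb.uni.2.1 (α := a + e) (β := b - e) (a := a) (b := b)
        (by linarith) (by linarith) (by linarith) hcl z hz
    set Ψ : ℂ → ℂ := fun z => Complex.log ((z - (b : ℂ)) / (z - (a : ℂ))) -
      Complex.log ((φ z - (b : ℂ)) / (φ z - (a : ℂ))) with hΨ
    have hΨd : DifferentiableOn ℂ Ψ Hp := (quot_diff hab).sub ((quot_diff hab).comp hb.uni.1 hb.uni.2.1)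
    have hΨi : ∀ z ∈ Hp, 0 ≤ (Ψ z).im := by
      intro z hz
      have := hcomp z hz
      simp only [hΨ, Complex.sub_im, Complex.log_im]
      linarith
    have hiy : Tendsto (fun y : ℝ => ((y : ℂ) * Complex.I) / ((y : ℂ) * Complex.I)) atTop
        (𝓝 1) := by
      refine tendsto_const_nhds.congr' ?_
      filter_upwards [eventually_gt_atTop (0 : ℝ)] with y hy
      have hy' : (y : ℂ) ≠ 0 := by exact_mod_cast hy.ne'
      rw [div_self (mul_ne_zero hy' Complex.I_ne_zero)]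
    have hyΨ : Tendsto (fun y : ℝ => (y : ℂ) * Ψ ((y : ℂ) * Complex.I)) atTop (𝓝 0) := by
      have h1 := (log_asymp hab hiy).sub (log_asymp hab hlim)
      rw [sub_self] at h1
      refine h1.congr' ?_
      filter_upwards with y
      simp only [hΨ]
      ring
    have hinv := tendsto_inv_c
    have hΨ0 : Tendsto (fun y : ℝ => Ψ ((y : ℂ) * Complex.I)) atTop (𝓝 0) := by
      have h1 := hinv.mul hyΨ
      rw [zero_mul] at h1
      refine h1.congr' ?_
      filter_upwards [eventually_gt_atTop (0 : ℝ)] with y hy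
      have hy' : (y : ℂ) ≠ 0 := by exact_mod_cast hy.ne'
      push_cast
      field_simp
    intro z hz
    have hz0 : Ψ z = 0 := by
      have h1 : Tendsto (fun y : ℝ => ‖Ψ z - Ψ ((y : ℂ) * Complex.I)‖ ^ 2 * z.im) atTop
          (𝓝 (‖Ψ z - 0‖ ^ 2 * z.im)) :=
        (((continuous_norm.tendsto _).comp (tendsto_const_nhds.sub hΨ0)).pow 2).mul_const _
      have h2 : Tendsto (fun y : ℝ => ‖z - (y : ℂ) * Complex.I‖ ^ 2 / y ^ 2 * (Ψ z).im *
          ((y : ℂ) * Ψ ((y : ℂ) * Complex.I)).im) atTop (𝓝 (1 * (Ψ z).im * (0 : ℂ).im)) :=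
        ((norm_ratio z hiy).mul_const _).mul ((Complex.continuous_im.tendsto _).comp hyΨ)
      have h3 : ‖Ψ z - 0‖ ^ 2 * z.im ≤ 1 * (Ψ z).im * (0 : ℂ).im := by
        refine le_of_tendsto_of_tendsto h1 h2 ?_
        filter_upwards [eventually_gt_atTop (0 : ℝ)] with y hy
        have h4 := hSP Ψ hΨd hΨi z hz ((y : ℂ) * Complex.I) (by simp [Hp, hy])
        have h5 : ((y : ℂ) * Complex.I).im = y := by simp
        rw [h5] at h4
        have h6 : ((y : ℂ) * Ψ ((y : ℂ) * Complex.I)).im = y * (Ψ ((y : ℂ) * Complex.I)).im := by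
          simp
        rw [h6]
        have h7 : ‖z - (y : ℂ) * Complex.I‖ ^ 2 / y ^ 2 * (Ψ z).im *
            (y * (Ψ ((y : ℂ) * Complex.I)).im) =
            (‖z - (y : ℂ) * Complex.I‖ ^ 2 * (Ψ z).im * (Ψ ((y : ℂ) * Complex.I)).im) / y := by
          field_simp
        rw [h7, le_div_iff₀ hy]
        exact h4
      rw [Complex.zero_im, mul_zero, sub_zero] at h3
      have h4 : ‖Ψ z‖ ^ 2 ≤ 0 := by
        by_contra hlt
        rw [not_le] at hlt
        have := mul_pos hlt hz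
        linarith
      have h5 : ‖Ψ z‖ = 0 :=
        pow_eq_zero_iff (two_ne_zero) |>.1 (le_antisymm h4 (sq_nonneg _))
      exact norm_eq_zero.1 h5
    have hw := hb.uni.2.1 hz
    have h1 : Complex.log ((z - (b : ℂ)) / (z - (a : ℂ))) =
        Complex.log ((φ z - (b : ℂ)) / (φ z - (a : ℂ))) := sub_eq_zero.1 hz0
    have h2 := congrArg Complex.exp h1
    rw [Complex.exp_log (Complex.slitPlane_ne_zero (quot_slit hab hz)),
      Complex.exp_log (Complex.slitPlane_ne_zero (quot_slit hab hw)),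
      div_eq_div_iff (sub_real_ne hz a) (sub_real_ne hw a)] at h2
    have hba : (b : ℂ) - a ≠ 0 := by
      rw [← Complex.ofReal_sub]
      exact_mod_cast (sub_pos.2 hab).ne'
    have h3 : ((b : ℂ) - a) * φ z = ((b : ℂ) - a) * z := by linear_combination -h2
    exact mul_left_cancel₀ hba h3

end Y362.LW

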